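import Pool.Agent.H81.VGC.Opn

/-!
# The quadratic conditions, linearised: an open condition implying `PsiInj2`
-/

set_option autoImplicit false

namespace Pool.Agent.H81.VGC

open Finset

variable {V : Type} [Fintype V] [DecidableEq V]

/-- index set of the unknowns `(c, ρ)` -/
abbrev KK (V : Type) : Type := (V × V × V) ⊕ (Fin 2 × Fin 2 × V)

/-- linearised Jacobi type equation -/
def jacT (T : KK V × KK V → ℂ) (x y z l : V) : ℂ :=
  (∑ k, T (Sum.inl (x, y, k), Sum.inl (k, z, l))) - (∑ k, T (Sum.inl (x, z, k), Sum.inl (k, y, l))) -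
    (∑ k, T (Sum.inl (y, z, k), Sum.inl (x, k, l)))

/-- linearised representation equation -/
def repT (T : KK V × KK V → ℂ) (l j : Fin 2) (y z : V) : ℂ :=
  (∑ i, T (Sum.inr (i, j, y), Sum.inr (l, i, z))) - (∑ i, T (Sum.inr (i, j, z), Sum.inr (l, i, y))) -
    (∑ k, T (Sum.inl (y, z, k), Sum.inr (l, j, k)))

/-- the big linear system -/
def bigLin (ω : Fin 2 → V → V → ℂ) :
    (KK V × KK V → ℂ) →ₗ[ℂ]
      ((KK V × KK V) ⊕ (((V × V × V) ⊕ (Fin 2 × V × V × V)) × KK V) ⊕ (V × V × V × V) ⊕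
        (Fin 2 × Fin 2 × V × V) → ℂ) where
  toFun T := fun t => match t with
    | Sum.inl (a, b) => T (a, b) - T (b, a)
    | Sum.inr (Sum.inl (s, b)) => psiLin ω (fun a => T (a, b)) s
    | Sum.inr (Sum.inr (Sum.inl (x, y, z, l))) => jacT T x y z l
    | Sum.inr (Sum.inr (Sum.inr (l, j, y, z))) => repT T l j y z
  map_add' T T' := by
    funext t
    rcases t with ⟨a, b⟩ | ⟨s, b⟩ | ⟨x, y, z, l⟩ | ⟨l, j, y, z⟩
    · simp only [Pi.add_apply]; ring
    · exact congrFun (map_add (psiLin ω) (fun a => T (a, b)) (fun a => T' (a, b))) s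
    · simp only [jacT, Pi.add_apply, Finset.sum_add_distrib]; ring
    · simp only [repT, Pi.add_apply, Finset.sum_add_distrib]; ring
  map_smul' r T := by
    funext t
    rcases t with ⟨a, b⟩ | ⟨s, b⟩ | ⟨x, y, z, l⟩ | ⟨l, j, y, z⟩
    · simp only [Pi.smul_apply, smul_eq_mul, RingHom.id_apply]; ring
    · exact congrFun (map_smul (psiLin ω) r (fun a => T (a, b))) s
    · simp only [jacT, Pi.smul_apply, smul_eq_mul, RingHom.id_apply, ← Finset.mul_sum]; ring
    · simp only [repT, Pi.smul_apply, smul_eq_mul, RingHom.id_apply, ← Finset.mul_sum]; ring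

theorem bigLin_a (ω : Fin 2 → V → V → ℂ) (T : KK V × KK V → ℂ) (a b : KK V) :
    bigLin ω T (Sum.inl (a, b)) = T (a, b) - T (b, a) := rfl

theorem bigLin_b (ω : Fin 2 → V → V → ℂ) (T : KK V × KK V → ℂ) (s : (V × V × V) ⊕ (Fin 2 × V × V × V))
    (b : KK V) :
    bigLin ω T (Sum.inr (Sum.inl (s, b))) = psiLin ω (fun a => T (a, b)) s := rfl

theorem bigLin_c (ω : Fin 2 → V → V → ℂ) (T : KK V × KK V → ℂ) (x y z l : V) :
    bigLin ω T (Sum.inr (Sum.inr (Sum.inl (x, y, z, l)))) = jacT T x y z l := rfl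

theorem bigLin_d (ω : Fin 2 → V → V → ℂ) (T : KK V × KK V → ℂ) (l j : Fin 2) (y z : V) :
    bigLin ω T (Sum.inr (Sum.inr (Sum.inr (l, j, y, z)))) = repT T l j y z := rfl

theorem bigLin_zero {ω : Fin 2 → V → V → ℂ} {T : KK V × KK V → ℂ} (h : bigLin ω T = 0) :
    (∀ a b, T (a, b) = T (b, a)) ∧ (∀ b, psiLin ω (fun a => T (a, b)) = 0) ∧
      (∀ x y z l, jacT T x y z l = 0) ∧ (∀ l j y z, repT T l j y z = 0) :=
  ⟨fun a b => sub_eq_zero.mp (congrFun h (Sum.inl (a, b))),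
    fun b => funext fun s => congrFun h (Sum.inr (Sum.inl (s, b))),
    fun x y z l => congrFun h (Sum.inr (Sum.inr (Sum.inl (x, y, z, l)))),
    fun l j y z => congrFun h (Sum.inr (Sum.inr (Sum.inr (l, j, y, z))))⟩

theorem psiInj2_of_big {ω : Fin 2 → V → V → ℂ} (h : ∀ T, bigLin ω T = 0 → T = 0) : PsiInj2 ω := by
  intro c ρ hanti hpsi hjac hrep
  obtain ⟨u, hu⟩ : ∃ u : KK V → ℂ, (∀ x y l, u (Sum.inl (x, y, l)) = c x y l) ∧
      (∀ i j y, u (Sum.inr (i, j, y)) = ρ i j y) :=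
    ⟨fun t => match t with
      | Sum.inl (x, y, l) => c x y l
      | Sum.inr (i, j, y) => ρ i j y, fun _ _ _ => rfl, fun _ _ _ => rfl⟩
  have hlin : psiLin ω u = 0 := by
    funext t
    rcases t with ⟨x, y, l⟩ | ⟨i, x, y, z⟩
    · rw [psiLin_inl, hu.1, hu.1]; exact hanti x y l
    · rw [psiLin_inr]
      simp only [hu.1, hu.2]
      exact hpsi i x y z
  have hT := h (fun p => u p.1 * u p.2) (by
    funext t
    rcases t with ⟨a, b⟩ | ⟨s, b⟩ | ⟨x, y, z, l⟩ | ⟨l, j, y, z⟩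
    · show u a * u b - u b * u a = 0
      ring
    · show psiLin ω (fun a => u a * u b) s = 0
      have : (fun a => u a * u b) = u b • u := by
        funext a
        simp [mul_comm]
      rw [this, map_smul, hlin]
      simp
    · show jacT (fun p => u p.1 * u p.2) x y z l = 0
      unfold jacT
      simp only [hu.1]
      exact hjac x y z l
    · show repT (fun p => u p.1 * u p.2) l j y z = 0
      unfold repT
      simp only [hu.1, hu.2]
      exact hrep l j y z)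
  have hu0 : ∀ a, u a = 0 := by
    intro a
    have := congrFun hT (a, a)
    exact mul_self_eq_zero.mp this
  exact ⟨fun x y l => by rw [← hu.1]; exact hu0 _, fun i j y => by rw [← hu.2]; exact hu0 _⟩

theorem exists_poly_big {σ : Type} (w : (σ → ℂ) → Fin 2 → V → V → ℂ)
    (hw : ∀ i x y, IsPoly (fun μ => w μ i x y)) (μ0 : σ → ℂ)
    (h0 : ∀ T, bigLin (w μ0) T = 0 → T = 0) :
    ∃ f : (σ → ℂ) → ℂ, IsPoly f ∧ f μ0 ≠ 0 ∧ ∀ μ, f μ ≠ 0 → PsiInj2 (w μ) := by
  classical
  have hP : ∀ (T : KK V × KK V → ℂ) t, IsPoly (fun x => bigLin (w x) T t) := by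
    intro T t
    rcases t with ⟨a, b⟩ | ⟨s, b⟩ | ⟨x, y, z, l⟩ | ⟨l, j, y, z⟩
    · simp only [bigLin_a]
      exact IsPoly.const _
    · simp only [bigLin_b]
      rcases s with ⟨x, y, l⟩ | ⟨i, x, y, z⟩
      · simp only [psiLin_inl]
        exact IsPoly.const _
      · simp only [psiLin_inr]
        exact isPoly_psi w hw _ _ i x y z
    · simp only [bigLin_c]
      exact IsPoly.const _
    · simp only [bigLin_d]
      exact IsPoly.const _
  obtain ⟨f, hf, hf0, hf1⟩ := exists_poly_inj (fun μ => bigLin (w μ)) (fun k t => hP _ t) μ0 h0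
  exact ⟨f, hf, hf0, fun μ hμ => psiInj2_of_big (hf1 μ hμ)⟩

end Pool.Agent.H81.VGC
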