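import Mathlib

/-!
# Algebraic core: a Leibniz algebra close to a generic class two algebra is of class two
-/

set_option autoImplicit false

namespace Pool.Agent.H81.VGC

open Finset

variable {V : Type*} [Fintype V]

/-- The `M`-part of the Leibniz identity, linear in `(c, ρ)` for given `ω`. -/
def psi (ω : Fin 2 → V → V → ℂ) (c : V → V → V → ℂ) (ρ : Fin 2 → Fin 2 → V → ℂ)
    (i : Fin 2) (x y z : V) : ℂ :=
  (∑ l, c x y l * ω i l z) - (∑ l, c x z l * ω i l y) - (∑ l, c y z l * ω i x l) +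
    ∑ j, (ρ i j z * ω j x y - ρ i j y * ω j x z)

/-- `Ψ_ω` is injective. -/
def PsiInj (ω : Fin 2 → V → V → ℂ) : Prop :=
  ∀ (c : V → V → V → ℂ) (ρ : Fin 2 → Fin 2 → V → ℂ),
    (∀ x y l, c x y l + c y x l = 0) → (∀ i x y z, psi ω c ρ i x y z = 0) →
      (∀ x y l, c x y l = 0) ∧ (∀ i j y, ρ i j y = 0)

/-- The pairs `(c, ρ)` with `Ψ_ω (c, ρ) = 0` satisfying the two quadratic systems are zero. -/
def PsiInj2 (ω : Fin 2 → V → V → ℂ) : Prop :=
  ∀ (c : V → V → V → ℂ) (ρ : Fin 2 → Fin 2 → V → ℂ),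
    (∀ x y l, c x y l + c y x l = 0) → (∀ i x y z, psi ω c ρ i x y z = 0) →
    (∀ x y z l, (∑ k, c x y k * c k z l) - (∑ k, c x z k * c k y l) - (∑ k, c y z k * c x k l) = 0) →
    (∀ l j y z, (∑ i, ρ i j y * ρ l i z) - (∑ i, ρ i j z * ρ l i y) - (∑ k, c y z k * ρ l j k) = 0) →
      (∀ x y l, c x y l = 0) ∧ (∀ i j y, ρ i j y = 0)

theorem PsiInj.psiInj2 {ω : Fin 2 → V → V → ℂ} (h : PsiInj ω) : PsiInj2 ω :=
  fun c ρ h1 h2 _ _ => h c ρ h1 h2

section core

variable {A : Type*} [AddCommGroup A] [Module ℂ A]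

theorem core (m : A →ₗ[ℂ] A →ₗ[ℂ] A)
    (hL : ∀ x y z, m (m x y) z = m (m x z) y + m x (m y z))
    (e : V → A) (π : Fin 2 → A →ₗ[ℂ] ℂ)
    (hpe : ∀ i v, π i (e v) = 0)
    (hspan : ∀ a, (∀ i, π i a = 0) → ∃ t : V → ℂ, a = ∑ l, t l • e l)
    (hind : ∀ t : V → ℂ, (∑ l, t l • e l) = 0 → ∀ l, t l = 0)
    (ha : ∀ t : V → ℂ, (∀ x, ∑ l, t l * π 0 (m (e x) (e l)) = 0) → ∀ l, t l = 0)
    (v₁ v₂ : V)
    (hb : π 0 (m (e v₁) (e v₁)) * (π 1 (m (e v₁) (e v₂)) + π 1 (m (e v₂) (e v₁))) -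
      π 1 (m (e v₁) (e v₁)) * (π 0 (m (e v₁) (e v₂)) + π 0 (m (e v₂) (e v₁))) ≠ 0)
    (hc : PsiInj2 fun i x y => π i (m (e x) (e y))) :
    ∀ x y z, m (m x y) z = 0 ∧ m x (m y z) = 0 := by
  classical
  -- squares are right annihilators
  have S1 : ∀ w x y, m w (m x y + m y x) = 0 := by
    intro w x y
    have h1 := hL w x y
    have h2 := hL w y x
    rw [h2] at h1
    rw [map_add]
    have h3 : m (m w x) y = m (m w x) y + (m w (m y x) + m w (m x y)) := by
      rw [← add_assoc]; exact h1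
    have h4 := (left_eq_add.mp h3)
    rw [add_comm]; exact h4
  -- trivial intersection
  have S2 : ∀ r, (∀ w, m w r = 0) → (∀ i, π i r = 0) → r = 0 := by
    intro r hr hp
    obtain ⟨t, ht⟩ := hspan r hp
    have : ∀ l, t l = 0 := by
      apply ha
      intro x
      have h := hr (e x)
      rw [ht, map_sum] at h
      have h' := congrArg (π 0) h
      rw [map_sum, map_zero] at h'
      simpa using h'
    rw [ht]
    simp [this]
  obtain ⟨m₁, hm₁⟩ : ∃ r, r = m (e v₁) (e v₁) := ⟨_, rfl⟩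
  obtain ⟨m₂, hm₂⟩ : ∃ r, r = m (e v₁) (e v₂) + m (e v₂) (e v₁) := ⟨_, rfl⟩
  have hm₁R : ∀ w, m w m₁ = 0 := by
    intro w
    have h := S1 w (e v₁) (e v₁)
    rw [← two_smul ℂ, map_smul] at h
    rw [hm₁]
    exact (smul_eq_zero.mp h).resolve_left two_ne_zero
  have hm₂R : ∀ w, m w m₂ = 0 := by
    intro w; rw [hm₂]; exact S1 w _ _
  obtain ⟨D, hD⟩ : ∃ D, D = π 0 m₁ * π 1 m₂ - π 1 m₁ * π 0 m₂ := ⟨_, rfl⟩
  have hD0 : D ≠ 0 := by
    rw [hD, hm₁, hm₂, map_add, map_add]; exact hb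
  -- dual elements
  obtain ⟨n, hn⟩ : ∃ n : Fin 2 → A, (∀ j w, m w (n j) = 0) ∧ (∀ i j, π i (n j) = if i = j then 1 else 0) := by
    refine ⟨![(D⁻¹ * π 1 m₂) • m₁ - (D⁻¹ * π 1 m₁) • m₂, (D⁻¹ * π 0 m₁) • m₂ - (D⁻¹ * π 0 m₂) • m₁], ?_, ?_⟩
    · intro j w
      fin_cases j
      · simp [hm₁R, hm₂R]
      · simp [hm₁R, hm₂R]
    · have hDD : D⁻¹ * (π 0 m₁ * π 1 m₂ - π 1 m₁ * π 0 m₂) = 1 := by
        rw [← hD]; exact inv_mul_cancel₀ hD0
      have g00 : π 0 ((D⁻¹ * π 1 m₂) • m₁ - (D⁻¹ * π 1 m₁) • m₂) = 1 := by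
        rw [map_sub, map_smul, map_smul, smul_eq_mul, smul_eq_mul]
        linear_combination hDD
      have g01 : π 0 ((D⁻¹ * π 0 m₁) • m₂ - (D⁻¹ * π 0 m₂) • m₁) = 0 := by
        rw [map_sub, map_smul, map_smul, smul_eq_mul, smul_eq_mul]
        ring
      have g10 : π 1 ((D⁻¹ * π 1 m₂) • m₁ - (D⁻¹ * π 1 m₁) • m₂) = 0 := by
        rw [map_sub, map_smul, map_smul, smul_eq_mul, smul_eq_mul]
        ring
      have g11 : π 1 ((D⁻¹ * π 0 m₁) • m₂ - (D⁻¹ * π 0 m₂) • m₁) = 1 := by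
        rw [map_sub, map_smul, map_smul, smul_eq_mul, smul_eq_mul]
        linear_combination hDD
      intro i j
      fin_cases i <;> fin_cases j
      · exact g00
      · exact g01
      · exact g10
      · exact g11
  obtain ⟨hnR, hnp⟩ := hn
  -- expansion in R
  have S4 : ∀ r, (∀ w, m w r = 0) → r = ∑ j, π j r • n j := by
    intro r hr
    rw [← sub_eq_zero]
    apply S2
    · intro w
      rw [map_sub, hr, map_sum]
      simp [hnR]
    · intro i
      rw [map_sub, map_sum]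
      simp [hnp]
  have S5 : ∀ r, (∀ w, m w r = 0) → ∀ y w, m w (m r y) = 0 := by
    intro r hr y w
    have h := S1 w r y
    rwa [hr y, add_zero] at h
  -- structure
  have S6 : ∀ x y, ∃ t : V → ℂ, m (e x) (e y) = ∑ l, t l • e l + ∑ j, π j (m (e x) (e y)) • n j := by
    intro x y
    obtain ⟨t, ht⟩ := hspan (m (e x) (e y) - ∑ j, π j (m (e x) (e y)) • n j) (by
      intro i
      rw [map_sub, map_sum]
      simp [hnp])
    exact ⟨t, by rw [← ht]; abel⟩
  choose c hcxy using S6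
  have S7 : ∀ x y l, c x y l + c y x l = 0 := by
    intro x y
    have h0 : (∑ l, (c x y l + c y x l) • e l) = 0 := by
      apply S2
      · intro w
        have h1 : (∑ l, (c x y l + c y x l) • e l) =
            (m (e x) (e y) + m (e y) (e x)) - ∑ j, (π j (m (e x) (e y)) + π j (m (e y) (e x))) • n j := by
          have ex := hcxy x y
          have ey := hcxy y x
          simp only [add_smul, Finset.sum_add_distrib]
          have e1 : (∑ l, c x y l • e l) = m (e x) (e y) - ∑ j, π j (m (e x) (e y)) • n j :=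
            eq_sub_of_add_eq ex.symm
          have e2 : (∑ l, c y x l • e l) = m (e y) (e x) - ∑ j, π j (m (e y) (e x)) • n j :=
            eq_sub_of_add_eq ey.symm
          rw [e1, e2]
          abel
        rw [h1, map_sub, S1, map_sum]
        simp [hnR]
      · intro i
        rw [map_sum]
        simp [hpe]
    exact hind _ h0
  have S8 : ∀ j y, m (n j) (e y) = ∑ i, π i (m (n j) (e y)) • n i := by
    intro j y
    exact S4 _ (fun w => S5 _ (hnR j) _ _)
  have S9 : ∀ i x y z, psi (fun i x y => π i (m (e x) (e y))) c (fun i j y => π i (m (n j) (e y))) i x y z = 0 := by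
    intro i x y z
    have h := congrArg (π i) (hL (e x) (e y) (e z))
    have A1 : ∀ x y z, π i (m (m (e x) (e y)) (e z)) =
        (∑ l, c x y l * π i (m (e l) (e z))) + ∑ j, π i (m (n j) (e z)) * π j (m (e x) (e y)) := by
      intro x y z
      conv_lhs => rw [hcxy x y]
      simp only [map_add, map_sum, map_smul, LinearMap.add_apply, LinearMap.sum_apply,
        LinearMap.smul_apply, smul_eq_mul]
      congr 1
      exact Finset.sum_congr rfl fun j _ => mul_comm _ _
    have A2 : π i (m (e x) (m (e y) (e z))) = ∑ l, c y z l * π i (m (e x) (e l)) := by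
      rw [hcxy y z]
      simp only [map_add, map_sum, map_smul, smul_eq_mul, hnR, smul_zero, Finset.sum_const_zero, map_zero,
        add_zero]
    rw [map_add, A1, A1, A2] at h
    unfold psi
    rw [Finset.sum_sub_distrib]
    linear_combination h
  have Jn : ∀ x y w, m w (m (e x) (e y)) = ∑ l, c x y l • m w (e l) := by
    intro x y w
    conv_lhs => rw [hcxy x y]
    simp [hnR]
  have J1 : ∀ x y z w, m w (m (m (e x) (e y)) (e z)) = ∑ l, (∑ k, c x y k * c k z l) • m w (e l) := by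
    intro x y z w
    have h1 : m (m (e x) (e y)) (e z) = ∑ k, c x y k • m (e k) (e z) +
        ∑ j, π j (m (e x) (e y)) • m (n j) (e z) := by
      conv_lhs => rw [hcxy x y]
      simp only [map_add, map_sum, map_smul, LinearMap.add_apply, LinearMap.sum_apply,
        LinearMap.smul_apply]
    rw [h1, map_add, map_sum, map_sum]
    have h2 : ∑ j, m w (π j (m (e x) (e y)) • m (n j) (e z)) = 0 := by
      apply Finset.sum_eq_zero
      intro j _
      rw [map_smul, S5 _ (hnR j), smul_zero]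
    rw [h2, add_zero]
    simp only [map_smul, Jn, Finset.smul_sum, Finset.sum_smul, mul_smul]
    rw [Finset.sum_comm]
  have J2 : ∀ x y z w, m w (m (e x) (m (e y) (e z))) = ∑ l, (∑ k, c y z k * c x k l) • m w (e l) := by
    intro x y z w
    have h1 : m (e x) (m (e y) (e z)) = ∑ k, c y z k • m (e x) (e k) := Jn y z (e x)
    rw [h1, map_sum]
    simp only [map_smul, Jn, Finset.smul_sum, Finset.sum_smul, mul_smul]
    rw [Finset.sum_comm]
  have S10 : ∀ x y z l, (∑ k, c x y k * c k z l) - (∑ k, c x z k * c k y l) -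
      (∑ k, c y z k * c x k l) = 0 := by
    intro x y z
    apply hind
    apply S2
    · intro w
      rw [map_sum]
      simp only [map_smul, map_sub, sub_smul, Finset.sum_sub_distrib]
      rw [← J1, ← J1, ← J2, hL (e x) (e y) (e z), map_add]
      abel
    · intro i
      rw [map_sum]
      simp [hpe]
  have S11 : ∀ l j y z, (∑ i, π i (m (n j) (e y)) * π l (m (n i) (e z))) -
      (∑ i, π i (m (n j) (e z)) * π l (m (n i) (e y))) - (∑ k, c y z k * π l (m (n j) (e k))) = 0 := by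
    intro l j y z
    have h1 : ∀ y z, π l (m (m (n j) (e y)) (e z)) = ∑ i, π i (m (n j) (e y)) * π l (m (n i) (e z)) := by
      intro y z
      conv_lhs => rw [S8 j y]
      simp only [map_sum, map_smul, LinearMap.sum_apply, LinearMap.smul_apply, smul_eq_mul]
    have h2 : π l (m (n j) (m (e y) (e z))) = ∑ k, c y z k * π l (m (n j) (e k)) := by
      rw [Jn y z (n j)]
      simp only [map_sum, map_smul, smul_eq_mul]
    have h3 := congrArg (π l) (hL (n j) (e y) (e z))
    rw [map_add, h1, h1, h2] at h3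
    rw [h3]
    ring
  obtain ⟨hc0, hr0⟩ := hc c _ S7 S9 S10 S11
  -- conclusion
  have T1 : ∀ x y w, m w (m (e x) (e y)) = 0 := by
    intro x y w
    rw [hcxy x y]
    simp [hc0, hnR]
  have T2 : ∀ j y, m (n j) (e y) = 0 := by
    intro j y
    rw [S8 j y]
    simp [hr0]
  have T3 : ∀ a, ∃ t : V → ℂ, a = ∑ l, t l • e l + ∑ j, π j a • n j := by
    intro a
    obtain ⟨t, ht⟩ := hspan (a - ∑ j, π j a • n j) (by
      intro i
      rw [map_sub, map_sum]
      simp [hnp])
    exact ⟨t, by rw [← ht]; abel⟩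
  have T4 : ∀ j b, m (n j) b = 0 := by
    intro j b
    obtain ⟨t, ht⟩ := T3 b
    rw [ht, map_add, map_sum, map_sum]
    simp [T2, hnR]
  have T5 : ∀ r, (∀ w, m w r = 0) → ∀ b, m r b = 0 := by
    intro r hr b
    rw [S4 r hr, map_sum, LinearMap.sum_apply]
    simp [T4]
  have T6 : ∀ a b w, m w (m a b) = 0 := by
    intro a b w
    obtain ⟨t, ht⟩ := T3 a
    obtain ⟨s, hs⟩ := T3 b
    have h1 : ∀ y, m w (m a (e y)) = 0 := by
      intro y
      conv_lhs => rw [ht]
      simp [T1, T4]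
    conv_lhs => rw [hs]
    simp [h1, hnR]
  intro x y z
  exact ⟨T5 _ (fun w => T6 x y w) z, T6 y z x⟩

end core

end Pool.Agent.H81.VGC
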