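import Mathlib

/-!
# Definitions: Leibniz algebra structures on `ℂ^n`, the Zariski topology, nilpotency, the algebra `A_n`
-/

set_option autoImplicit false

namespace Pool.Agent.H81.VGC

open MvPolynomial

/-- The Zariski topology on `ℂ^σ`: the closed sets are the common zero sets of sets of polynomials. -/
@[reducible]
def zariski (σ : Type) : TopologicalSpace (σ → ℂ) :=
  TopologicalSpace.ofClosed
    {Z | ∃ P : Set (MvPolynomial σ ℂ), Z = {x | ∀ p ∈ P, MvPolynomial.eval x p = 0}}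
    ⟨{1}, by ext x; simp⟩
    (by
      intro A hA
      choose! P hP using fun Z (hZ : Z ∈ A) => hA hZ
      refine ⟨⋃ Z ∈ A, P Z, ?_⟩
      ext x
      simp only [Set.mem_sInter, Set.mem_iUnion, Set.mem_ofPred_eq, exists_prop, forall_exists_index,
        and_imp]
      constructor
      · intro h p Z hZ hp
        have := h Z hZ
        rw [hP Z hZ] at this
        exact this p hp
      · intro h Z hZ
        rw [hP Z hZ]
        intro p hp
        exact h p Z hZ hp)
    (by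
      rintro A ⟨P, rfl⟩ B ⟨Q, rfl⟩
      refine ⟨{r | ∃ p ∈ P, ∃ q ∈ Q, r = p * q}, ?_⟩
      ext x
      simp only [Set.mem_union, Set.mem_ofPred_eq, forall_exists_index, and_imp]
      constructor
      · rintro (h | h) r p hp q hq rfl
        · rw [map_mul, h p hp, zero_mul]
        · rw [map_mul, h q hq, mul_zero]
      · intro h
        by_contra hcon
        rw [not_or] at hcon
        obtain ⟨h1, h2⟩ := hcon
        push Not at h1 h2
        obtain ⟨p, hp, hp0⟩ := h1
        obtain ⟨q, hq, hq0⟩ := h2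
        have := h _ p hp q hq rfl
        rw [map_mul] at this
        exact (mul_ne_zero hp0 hq0) this)

/-- The product on `ℂ^n` with structure constants `μ`: `(x y)_k = ∑_{i,j} x_i y_j μ_{ijk}`. -/
def mul {n : ℕ} (μ : Fin n × Fin n × Fin n → ℂ) (x y : Fin n → ℂ) : Fin n → ℂ :=
  fun k => ∑ i, ∑ j, x i * y j * μ (i, j, k)

/-- The variety of (right) Leibniz algebra structures on `ℂ^n`. -/
def Leib (n : ℕ) : Set (Fin n × Fin n × Fin n → ℂ) :=
  {μ | ∀ x y z : Fin n → ℂ, mul μ (mul μ x y) z = mul μ (mul μ x z) y + mul μ x (mul μ y z)}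

/-- `A^m = 0` for some `m`, where `A^1 = A`, `A^{k+1} = A^k A`. -/
def IsNil {n : ℕ} (μ : Fin n × Fin n × Fin n → ℂ) : Prop :=
  ∃ m : ℕ, ∀ x y : ℕ → (Fin n → ℂ), y 0 = x 0 → (∀ i : ℕ, y (i + 1) = mul μ (y i) (x (i + 1))) → y m = 0

/-- The Zariski topology on `Leib_n` (induced from `ℂ^{n^3}`). -/
@[reducible]
def zarLeib (n : ℕ) : TopologicalSpace (Leib n) := (zariski (Fin n × Fin n × Fin n)).induced Subtype.val

/-- The algebra `A_n`, `n ≥ 5`, with basis `e_1, …, e_n` (in Lean the index of `e_i` is `i - 1`):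
`e_i e_i = e_{n-1}` for `1 ≤ i ≤ n-2`, and `e_1 e_2 = e_3 e_4 = e_n` if `n ≠ 5`,
`e_1 e_2 = e_2 e_3 = e_3 e_2 = e_n` if `n = 5`; all other products of basis vectors are zero. -/
def algA (n : ℕ) : Fin n × Fin n × Fin n → ℂ := fun t =>
  if t.1 = t.2.1 ∧ t.1.val + 2 < n ∧ t.2.2.val + 2 = n then 1
  else if ((t.1.val = 0 ∧ t.2.1.val = 1) ∨ (n ≠ 5 ∧ t.1.val = 2 ∧ t.2.1.val = 3) ∨
    (n = 5 ∧ t.1.val = 1 ∧ t.2.1.val = 2) ∨ (n = 5 ∧ t.1.val = 2 ∧ t.2.1.val = 1)) ∧
      t.2.2.val + 1 = n then 1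
  else 0

end Pool.Agent.H81.VGC
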