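import Pool.Agent.H81.VGC.Five

/-!
# The case `n = 5`: the big linear system is injective at `om5`
-/

set_option autoImplicit false
set_option linter.unusedVariables false
set_option linter.unusedSimpArgs false
set_option linter.unusedSectionVars false
set_option linter.unusedTactic false
set_option linter.unreachableTactic false

namespace Pool.Agent.H81.VGC

open Finset

theorem big5 (T : KK (Fin 3) × KK (Fin 3) → ℂ) (hT : bigLin om5 T = 0) : T = 0 := by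
  obtain ⟨hsym, hlin, hjac, hrep⟩ := bigLin_zero hT
  obtain ⟨g0, hg0⟩ : ∃ g : KK (Fin 3) → ℂ, g = fun b => T (Sum.inr (0, 1, 2), b) := ⟨_, rfl⟩
  obtain ⟨g1, hg1⟩ : ∃ g : KK (Fin 3) → ℂ, g = fun b => T (Sum.inr (1, 0, 2), b) := ⟨_, rfl⟩
  obtain ⟨g2, hg2⟩ : ∃ g : KK (Fin 3) → ℂ, g = fun b => T (Sum.inr (1, 1, 2), b) := ⟨_, rfl⟩
  have key : ∀ b, (∀ x y l, T (Sum.inl (x, y, l), b) = tabC (g0 b) (g1 b) (g2 b) x y l) ∧
      (∀ i j y, T (Sum.inr (i, j, y), b) = tabR (g0 b) (g1 b) (g2 b) i j y) := by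
    intro b
    have h := ker5 (fun x y l => T (Sum.inl (x, y, l), b)) (fun i j y => T (Sum.inr (i, j, y), b))
      (fun x y l => by
        have := congrFun (hlin b) (Sum.inl (x, y, l))
        rw [psiLin_inl] at this
        exact this)
      (fun i x y z => by
        have := congrFun (hlin b) (Sum.inr (i, x, y, z))
        rw [psiLin_inr] at this
        exact this)
    rw [hg0, hg1, hg2]
    exact h
  have A : ∀ x y l b, T (Sum.inl (x, y, l), b) = tabC (g0 b) (g1 b) (g2 b) x y l := fun x y l b => (key b).1 x y l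
  have B : ∀ i j y b, T (Sum.inr (i, j, y), b) = tabR (g0 b) (g1 b) (g2 b) i j y := fun i j y b => (key b).2 i j y
  obtain ⟨t, ht⟩ : ∃ t : Fin 3 → Fin 3 → ℂ,
      t = ![![g0 (Sum.inr (0, 1, 2)), g0 (Sum.inr (1, 0, 2)), g0 (Sum.inr (1, 1, 2))],
        ![g1 (Sum.inr (0, 1, 2)), g1 (Sum.inr (1, 0, 2)), g1 (Sum.inr (1, 1, 2))],
        ![g2 (Sum.inr (0, 1, 2)), g2 (Sum.inr (1, 0, 2)), g2 (Sum.inr (1, 1, 2))]] := ⟨_, rfl⟩
  have t00 : g0 (Sum.inr (0, 1, 2)) = t 0 0 := by rw [ht]; rfl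
  have t01 : g0 (Sum.inr (1, 0, 2)) = t 0 1 := by rw [ht]; rfl
  have t02 : g0 (Sum.inr (1, 1, 2)) = t 0 2 := by rw [ht]; rfl
  have t10 : g1 (Sum.inr (0, 1, 2)) = t 0 1 := by rw [← t01, hg0, hg1]; exact hsym _ _
  have t11 : g1 (Sum.inr (1, 0, 2)) = t 1 1 := by rw [ht]; rfl
  have t12 : g1 (Sum.inr (1, 1, 2)) = t 1 2 := by rw [ht]; rfl
  have t20 : g2 (Sum.inr (0, 1, 2)) = t 0 2 := by rw [← t02, hg0, hg2]; exact hsym _ _
  have t21 : g2 (Sum.inr (1, 0, 2)) = t 1 2 := by rw [← t12, hg1, hg2]; exact hsym _ _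
  have t22 : g2 (Sum.inr (1, 1, 2)) = t 2 2 := by rw [ht]; rfl
  have G0A : ∀ x y l, g0 (Sum.inl (x, y, l)) = tabC (t 0 0) (t 0 1) (t 0 2) x y l := by
    intro x y l
    have h := A x y l (Sum.inr (0, 1, 2))
    rw [t00, t10, t20, hsym] at h
    rw [← h, hg0]
  have G0B : ∀ x y l, g0 (Sum.inr (x, y, l)) = tabR (t 0 0) (t 0 1) (t 0 2) x y l := by
    intro x y l
    have h := B x y l (Sum.inr (0, 1, 2))
    rw [t00, t10, t20, hsym] at h
    rw [← h, hg0]
  have G1A : ∀ x y l, g1 (Sum.inl (x, y, l)) = tabC (t 0 1) (t 1 1) (t 1 2) x y l := by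
    intro x y l
    have h := A x y l (Sum.inr (1, 0, 2))
    rw [t01, t11, t21, hsym] at h
    rw [← h, hg1]
  have G1B : ∀ x y l, g1 (Sum.inr (x, y, l)) = tabR (t 0 1) (t 1 1) (t 1 2) x y l := by
    intro x y l
    have h := B x y l (Sum.inr (1, 0, 2))
    rw [t01, t11, t21, hsym] at h
    rw [← h, hg1]
  have G2A : ∀ x y l, g2 (Sum.inl (x, y, l)) = tabC (t 0 2) (t 1 2) (t 2 2) x y l := by
    intro x y l
    have h := A x y l (Sum.inr (1, 1, 2))
    rw [t02, t12, t22, hsym] at h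
    rw [← h, hg2]
  have G2B : ∀ x y l, g2 (Sum.inr (x, y, l)) = tabR (t 0 2) (t 1 2) (t 2 2) x y l := by
    intro x y l
    have h := B x y l (Sum.inr (1, 1, 2))
    rw [t02, t12, t22, hsym] at h
    rw [← h, hg2]
  have q1 := hjac 0 1 2 0
  have q2 := hrep 0 0 0 1
  have q3 := hrep 0 0 0 2
  have q4 := hrep 1 0 1 2
  have q5 := hrep 0 1 0 1
  have q6 := hrep 0 1 1 2
  simp only [jacT, repT, Fin.sum_univ_three, Fin.sum_univ_two, A, B, tabC, tabR, Fin.isValue, Matrix.cons_val,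
    G0A, G0B, G1A, G1B, G2A, G2B] at q1 q2 q3 q4 q5 q6
  have z02 : t 0 2 = 0 := by linear_combination (-1 / 2) * q1
  have z12 : t 1 2 = 0 := by linear_combination (1 / 4) * q2
  have z11 : t 1 1 = 0 := by linear_combination (-3 / 4) * q3 - 2 * q4
  have z01 : t 0 1 = 0 := by linear_combination (-1 / 8) * q3 + (1 / 2) * z11
  have z22 : t 2 2 = 0 := by linear_combination (1 / 2) * q5 - z11
  have z00 : t 0 0 = 0 := by linear_combination q6 - 4 * z22
  have C0 : ∀ x y l, tabC 0 0 0 x y l = 0 := by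
    intro x y l
    fin_cases x <;> fin_cases y <;> fin_cases l <;> simp [tabC]
  have R0 : ∀ x y l, tabR 0 0 0 x y l = 0 := by
    intro x y l
    fin_cases x <;> fin_cases y <;> fin_cases l <;> simp [tabR]
  have h0 : ∀ b, g0 b = 0 := by
    intro b
    rcases b with ⟨x, y, l⟩ | ⟨i, j, y⟩
    · rw [G0A, z00, z01, z02, C0]
    · rw [G0B, z00, z01, z02, R0]
  have h1 : ∀ b, g1 b = 0 := by
    intro b
    rcases b with ⟨x, y, l⟩ | ⟨i, j, y⟩
    · rw [G1A, z01, z11, z12, C0]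
    · rw [G1B, z01, z11, z12, R0]
  have h2 : ∀ b, g2 b = 0 := by
    intro b
    rcases b with ⟨x, y, l⟩ | ⟨i, j, y⟩
    · rw [G2A, z02, z12, z22, C0]
    · rw [G2B, z02, z12, z22, R0]
  funext p
  obtain ⟨a, b⟩ := p
  rcases a with ⟨x, y, l⟩ | ⟨i, j, y⟩
  · rw [A, h0, h1, h2, C0]; rfl
  · rw [B, h0, h1, h2, R0]; rfl

end Pool.Agent.H81.VGC
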