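import Pool.Agent.H81.VGC.Main
import Pool.Agent.H81.VGC.Five2

/-!
# Nilpotent irreducible components of `Leib_n`, `n ≥ 5`
-/

set_option autoImplicit false

namespace Pool.Agent.H81.VGC

open Finset Topology

/-- the class two algebra with bilinear form `ω : V × V → ℂ²` -/
def modelG (m : ℕ) (ω : Fin 2 → Fin m → Fin m → ℂ) : Fin (m + 2) × Fin (m + 2) × Fin (m + 2) → ℂ := fun t =>
  match (ph m).symm t.1, (ph m).symm t.2.1, (ph m).symm t.2.2 with
  | Sum.inl x, Sum.inl y, Sum.inr i => ω i x y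
  | _, _, _ => 0

theorem modelG_inl (m : ℕ) (ω : Fin 2 → Fin m → Fin m → ℂ) (i j : Fin (m + 2)) (l : Fin m) :
    modelG m ω (i, j, ph m (Sum.inl l)) = 0 := by
  unfold modelG
  simp only [Equiv.symm_apply_apply]
  split <;> simp_all

theorem modelG_inr_left (m : ℕ) (ω : Fin 2 → Fin m → Fin m → ℂ) (s : Fin 2) (j k : Fin (m + 2)) :
    modelG m ω (ph m (Sum.inr s), j, k) = 0 := by
  unfold modelG
  simp only [Equiv.symm_apply_apply]

theorem modelG_inr_right (m : ℕ) (ω : Fin 2 → Fin m → Fin m → ℂ) (s : Fin 2) (i k : Fin (m + 2)) :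
    modelG m ω (i, ph m (Sum.inr s), k) = 0 := by
  unfold modelG
  simp only [Equiv.symm_apply_apply]
  split <;> simp_all

theorem modelG_apply (m : ℕ) (ω : Fin 2 → Fin m → Fin m → ℂ) (x y : Fin m) (u : Fin 2) :
    modelG m ω (ph m (Sum.inl x), ph m (Sum.inl y), ph m (Sum.inr u)) = ω u x y := by
  unfold modelG
  simp only [Equiv.symm_apply_apply]

theorem ww_modelG (m : ℕ) (ω : Fin 2 → Fin m → Fin m → ℂ) : ww m (modelG m ω) = ω := by
  funext i x y
  exact modelG_apply m ω x y i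

theorem classTwo_modelG (m : ℕ) (ω : Fin 2 → Fin m → Fin m → ℂ) : ClassTwo (modelG m ω) := by
  have h1 : ∀ (x y : Fin (m + 2) → ℂ) (l : Fin m), mul (modelG m ω) x y (ph m (Sum.inl l)) = 0 := by
    intro x y l
    unfold mul
    simp only [modelG_inl, mul_zero, Finset.sum_const_zero]
  have h2 : ∀ u z : Fin (m + 2) → ℂ, (∀ l : Fin m, u (ph m (Sum.inl l)) = 0) →
      mul (modelG m ω) u z = 0 := by
    intro u z hu
    funext k
    unfold mul
    apply Finset.sum_eq_zero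
    intro i _
    apply Finset.sum_eq_zero
    intro j _
    obtain ⟨t, rfl⟩ := (ph m).surjective i
    rcases t with l | s
    · rw [hu l]; ring
    · rw [modelG_inr_left]; ring
  have h3 : ∀ u z : Fin (m + 2) → ℂ, (∀ l : Fin m, u (ph m (Sum.inl l)) = 0) →
      mul (modelG m ω) z u = 0 := by
    intro u z hu
    funext k
    unfold mul
    apply Finset.sum_eq_zero
    intro i _
    apply Finset.sum_eq_zero
    intro j _
    obtain ⟨t, rfl⟩ := (ph m).surjective j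
    rcases t with l | s
    · rw [hu l]; ring
    · rw [modelG_inr_right]; ring
  intro x y z
  exact ⟨h2 _ _ (h1 x y), h3 _ _ (h1 y z)⟩

theorem ClassTwo.mem_leib {n : ℕ} {μ : Fin n × Fin n × Fin n → ℂ} (h : ClassTwo μ) : μ ∈ Leib n := by
  intro x y z
  rw [(h x y z).1, (h x z y).1, (h x y z).2, add_zero]

theorem ph_inl_val (m : ℕ) (x : Fin m) : (ph m (Sum.inl x)).val = x.val := by
  simp [ph]

theorem ph_inr_val (m : ℕ) (i : Fin 2) : (ph m (Sum.inr i)).val = m + i.val := by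
  simp [ph]

theorem modelG_eq_algA (m : ℕ) (hm : 3 ≤ m) (ω : Fin 2 → Fin m → Fin m → ℂ)
    (h0 : ∀ x y, ω 0 x y = if x = y then 1 else 0)
    (h1 : ∀ x y, ω 1 x y = if ((x.val = 0 ∧ y.val = 1) ∨ (m ≠ 3 ∧ x.val = 2 ∧ y.val = 3) ∨
      (m = 3 ∧ x.val = 1 ∧ y.val = 2) ∨ (m = 3 ∧ x.val = 2 ∧ y.val = 1)) then 1 else 0) :
    modelG m ω = algA (m + 2) := by
  have e3 : (m + 2 = 5) = (m = 3) := by
    apply propext; omega
  funext t
  obtain ⟨i, j, k⟩ := t
  obtain ⟨s, rfl⟩ := (ph m).surjective i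
  obtain ⟨t, rfl⟩ := (ph m).surjective j
  obtain ⟨u, rfl⟩ := (ph m).surjective k
  rcases u with l | u
  · rw [modelG_inl]
    unfold algA
    simp only [ph_inl_val]
    have hl := l.2
    rw [if_neg (by omega), if_neg (by omega)]
  · rcases s with x | s
    · rcases t with y | t
      · rw [modelG_apply]
        have hx := x.2
        have hy := y.2
        obtain rfl | rfl : u = 0 ∨ u = 1 := by
          fin_cases u
          · exact Or.inl rfl
          · exact Or.inr rfl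
        · rw [h0]
          unfold algA
          simp only [ph_inl_val, ph_inr_val, Equiv.apply_eq_iff_eq, Sum.inl.injEq, Fin.val_zero, add_zero]
          by_cases h : x = y
          · rw [if_pos h, if_pos ⟨h, by omega, trivial⟩]
          · rw [if_neg h, if_neg (fun hh => h hh.1), if_neg (by omega)]
        · rw [h1]
          unfold algA
          simp only [ph_inl_val, ph_inr_val, Equiv.apply_eq_iff_eq, Sum.inl.injEq, Fin.val_one, Fin.ext_iff]
          have n1 : ¬ (x.val = y.val ∧ x.val + 2 < m + 2 ∧ m + 1 + 2 = m + 2) := by omega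
          rw [if_neg n1]
          congr 1
          apply propext
          simp only [ne_eq, e3, and_true]
      · rw [modelG_inr_right]
        unfold algA
        simp only [ph_inl_val, ph_inr_val, Fin.ext_iff]
        have hx := x.2
        rw [if_neg (by omega), if_neg (by omega)]
    · rw [modelG_inr_left]
      unfold algA
      simp only [ph_inr_val, Fin.ext_iff]
      rw [if_neg (by omega), if_neg (by omega)]

/-- the open set for a pair of forms satisfying the three conditions -/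
theorem exists_open_of (m : ℕ) (v₁ v₂ : Fin m) (μ0 : Fin (m + 2) × Fin (m + 2) × Fin (m + 2) → ℂ)
    (g : (Fin (m + 2) × Fin (m + 2) × Fin (m + 2) → ℂ) → ℂ) (hg : IsPoly g) (hg0 : g μ0 ≠ 0)
    (hg1 : ∀ μ, g μ ≠ 0 → PsiInj2 (ww m μ))
    (h1 : (Matrix.of fun x l => ww m μ0 0 x l).det ≠ 0)
    (h2 : ww m μ0 0 v₁ v₁ * (ww m μ0 1 v₁ v₂ + ww m μ0 1 v₂ v₁) -
      ww m μ0 1 v₁ v₁ * (ww m μ0 0 v₁ v₂ + ww m μ0 0 v₂ v₁) ≠ 0) :
    ∃ (f : (Fin (m + 2) × Fin (m + 2) × Fin (m + 2) → ℂ) → ℂ), IsPoly f ∧ f μ0 ≠ 0 ∧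
      ∀ μ ∈ Leib (m + 2), f μ ≠ 0 → ClassTwo μ := by
  refine ⟨fun μ => (Matrix.of fun x l => ww m μ 0 x l).det *
    (ww m μ 0 v₁ v₁ * (ww m μ 1 v₁ v₂ + ww m μ 1 v₂ v₁) - ww m μ 1 v₁ v₁ * (ww m μ 0 v₁ v₂ + ww m μ 0 v₂ v₁)) * g μ,
    ?_, ?_, ?_⟩
  · refine IsPoly.mul (IsPoly.mul (IsPoly.det fun i j => isPoly_ww m _ _ _) ?_) hg
    exact ((isPoly_ww m _ _ _).mul ((isPoly_ww m _ _ _).add (isPoly_ww m _ _ _))).sub
      ((isPoly_ww m _ _ _).mul ((isPoly_ww m _ _ _).add (isPoly_ww m _ _ _)))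
  · exact mul_ne_zero (mul_ne_zero h1 h2) hg0
  · intro μ hμ hf
    have h1 := left_ne_zero_of_mul hf
    exact classTwo_of_open m v₁ v₂ μ hμ (left_ne_zero_of_mul h1) (right_ne_zero_of_mul h1)
      (hg1 μ (right_ne_zero_of_mul hf))

theorem exists_open5 :
    ∃ (f : (Fin (3 + 2) × Fin (3 + 2) × Fin (3 + 2) → ℂ) → ℂ), IsPoly f ∧ f (algA (3 + 2)) ≠ 0 ∧
      ∀ μ ∈ Leib (3 + 2), f μ ≠ 0 → ClassTwo μ := by
  have e : modelG 3 om5 = algA (3 + 2) := modelG_eq_algA 3 le_rfl om5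
    (by
      intro x y
      fin_cases x <;> fin_cases y <;> simp [om5])
    (by
      intro x y
      fin_cases x <;> fin_cases y <;> simp [om5])
  rw [← e]
  obtain ⟨g, hg, hg0, hg1⟩ := exists_poly_big (fun μ => ww 3 μ) (isPoly_ww 3) (modelG 3 om5)
    (by rw [ww_modelG]; exact big5)
  refine exists_open_of 3 0 1 _ g hg hg0 hg1 ?_ ?_
  · have e : (Matrix.of fun x l => ww 3 (modelG 3 om5) 0 x l) = 1 := by
      rw [ww_modelG]
      ext x l
      fin_cases x <;> fin_cases l <;> simp [om5]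
    rw [e, Matrix.det_one]
    exact one_ne_zero
  · rw [ww_modelG]
    simp [om5]

/-- the open set -/
theorem exists_open (m : ℕ) (hm : 4 ≤ m) :
    ∃ (f : (Fin (m + 2) × Fin (m + 2) × Fin (m + 2) → ℂ) → ℂ), IsPoly f ∧ f (algA (m + 2)) ≠ 0 ∧
      ∀ μ ∈ Leib (m + 2), f μ ≠ 0 → ClassTwo μ := by
  obtain ⟨a, ha⟩ : ∃ a : Fin m, a = ⟨0, by omega⟩ := ⟨_, rfl⟩
  obtain ⟨b, hb⟩ : ∃ a : Fin m, a = ⟨1, by omega⟩ := ⟨_, rfl⟩
  obtain ⟨a', ha'⟩ : ∃ a : Fin m, a = ⟨2, by omega⟩ := ⟨_, rfl⟩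
  obtain ⟨b', hb'⟩ : ∃ a : Fin m, a = ⟨3, by omega⟩ := ⟨_, rfl⟩
  have e : modelG m (om a b a' b') = algA (m + 2) := modelG_eq_algA m (by omega) _
    (by intro x y; simp [om, dl])
    (by
      intro x y
      have e0 : om a b a' b' 1 x y = bb a b a' b' x y := by simp [om]
      rw [e0]
      unfold bb
      rw [ha, hb, ha', hb']
      simp only [Fin.ext_iff]
      by_cases h1 : x.val = 0 ∧ y.val = 1
      · rw [if_pos h1, if_neg (by omega), if_pos (Or.inl h1), add_zero]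
      · by_cases h2 : x.val = 2 ∧ y.val = 3
        · rw [if_neg h1, if_pos h2, if_pos (Or.inr (Or.inl ⟨by omega, h2⟩)), zero_add]
        · rw [if_neg h1, if_neg h2, if_neg (by omega), add_zero])
  rw [← e]
  have hab : a ≠ b := by rw [ha, hb]; simp [Fin.ext_iff]
  have haa : a ≠ a' := by rw [ha, ha']; simp [Fin.ext_iff]
  have hab' : a ≠ b' := by rw [ha, hb']; simp [Fin.ext_iff]
  have hba' : b ≠ a' := by rw [hb, ha']; simp [Fin.ext_iff]
  have hbb : b ≠ b' := by rw [hb, hb']; simp [Fin.ext_iff]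
  have ha'b' : a' ≠ b' := by rw [ha', hb']; simp [Fin.ext_iff]
  have hinj := psiInj_om a b a' b' hab haa hab' hba' hbb ha'b'
  obtain ⟨g, hg, hg0, hg1⟩ := exists_poly_psi (fun μ => ww m μ) (isPoly_ww m) (modelG m (om a b a' b'))
    (by rw [ww_modelG]; exact hinj)
  refine exists_open_of m a b _ g hg hg0 (fun μ hμ => (hg1 μ hμ).psiInj2) ?_ ?_
  · have e : (Matrix.of fun x l => ww m (modelG m (om a b a' b')) 0 x l) = 1 := by
      ext x l
      rw [ww_modelG]
      simp [om, dl, Matrix.one_apply]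
    rw [e, Matrix.det_one]
    exact one_ne_zero
  · rw [ww_modelG]
    simp [om, dl, bb, hab, hab.symm, haa, hab', hba', hbb]

theorem classTwo_algA (m : ℕ) (hm : 3 ≤ m) : ClassTwo (algA (m + 2)) := by
  have e := modelG_eq_algA m hm (fun i x y => if i = 0 then (if x = y then 1 else 0) else
    if ((x.val = 0 ∧ y.val = 1) ∨ (m ≠ 3 ∧ x.val = 2 ∧ y.val = 3) ∨
      (m = 3 ∧ x.val = 1 ∧ y.val = 2) ∨ (m = 3 ∧ x.val = 2 ∧ y.val = 1)) then 1 else 0)
    (fun x y => by simp) (fun x y => by simp)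
  rw [← e]
  exact classTwo_modelG _ _

/-- main theorem -/
theorem main (n : ℕ) (hn : 5 ≤ n) :
    ∃ hA : algA n ∈ Leib n, ClassTwo (algA n) ∧
      (⟨algA n, hA⟩ : Leib n) ∉ @closure (Leib n) (zarLeib n) {μ | ¬ IsNil μ.1} ∧
      (∃ C ∈ @irreducibleComponents (Leib n) (zarLeib n), (⟨algA n, hA⟩ : Leib n) ∈ C) ∧
      ∀ C ∈ @irreducibleComponents (Leib n) (zarLeib n), (⟨algA n, hA⟩ : Leib n) ∈ C →
        ∀ μ ∈ C, ClassTwo μ.1 := by
  obtain ⟨m, rfl⟩ : ∃ m, n = m + 2 := ⟨n - 2, by omega⟩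
  have hm : 3 ≤ m := by omega
  have h0 : ClassTwo (algA (m + 2)) := classTwo_algA m hm
  have hop : ∃ (f : (Fin (m + 2) × Fin (m + 2) × Fin (m + 2) → ℂ) → ℂ), IsPoly f ∧ f (algA (m + 2)) ≠ 0 ∧
      ∀ μ ∈ Leib (m + 2), f μ ≠ 0 → ClassTwo μ := by
    rcases Nat.lt_or_ge m 4 with h | h
    · obtain rfl : m = 3 := by omega
      exact exists_open5
    · exact exists_open m h
  obtain ⟨f, hf, hf0, hU⟩ := hop
  let _ := zarLeib (m + 2)
  obtain ⟨U, hUdef⟩ : ∃ U : Set (Leib (m + 2)), U = {μ | f μ.1 ≠ 0} := ⟨_, rfl⟩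
  have hUo : IsOpen U := by
    rw [hUdef]
    exact @IsOpen.preimage _ _ (zarLeib _) (zariski _) _ (@continuous_induced_dom _ _ _ (zariski _)) _ (isOpen_ne hf)
  have hUc : ∀ μ ∈ U, ClassTwo μ.1 := by
    intro μ hμ
    rw [hUdef] at hμ
    exact hU μ.1 μ.2 hμ
  refine ⟨h0.mem_leib, h0, ?_, ?_, ?_⟩
  · intro h
    rw [mem_closure_iff] at h
    obtain ⟨μ, hμU, hμ⟩ := h U hUo (by rw [hUdef]; exact hf0)
    exact hμ (hUc μ hμU).isNil
  · exact ⟨irreducibleComponent _, irreducibleComponent_mem_irreducibleComponents _, mem_irreducibleComponent⟩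
  · intro C hC hAC μ hμ
    have h1 : C ⊆ closure (C ∩ U) :=
      subset_closure_inter_of_isPreirreducible_of_isOpen hC.1.2 hUo
        ⟨_, hAC, by rw [hUdef]; exact hf0⟩
    have h2 : closure (C ∩ U) ⊆ {μ : Leib (m + 2) | ClassTwo μ.1} :=
      closure_minimal (fun μ hμ => hUc μ hμ.2) (isClosed_classTwo _)
    exact h2 (h1 hμ)

end Pool.Agent.H81.VGC
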