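import Pool.Agent.H81.VGC.Big

/-!
# The case `n = 5`: `ω₀ = identity`, `ω₁ = E₁₂ + E₂₃ + E₃₂` on `ℂ³`
-/

set_option autoImplicit false
set_option linter.unusedVariables false
set_option linter.unusedSimpArgs false
set_option linter.unusedSectionVars false
set_option linter.unusedTactic false
set_option linter.unreachableTactic false

namespace Pool.Agent.H81.VGC

open Finset

/-- the pair of bilinear forms on `ℂ³` -/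
def om5 : Fin 2 → Fin 3 → Fin 3 → ℂ :=
  ![![![1, 0, 0], ![0, 1, 0], ![0, 0, 1]], ![![0, 1, 0], ![0, 0, 1], ![0, 1, 0]]]

/-- kernel table, `c` part -/
def tabC (a b c : ℂ) : Fin 3 → Fin 3 → Fin 3 → ℂ :=
  ![![![0, 0, 0], ![2 * a, c, b - a], ![0, b, c]],
    ![![-(2 * a), -c, a - b], ![0, 0, 0], ![0, c, b - 2 * a]],
    ![![0, -b, -c], ![0, -c, 2 * a - b], ![0, 0, 0]]]

/-- kernel table, `ρ` part -/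
def tabR (a b c : ℂ) : Fin 2 → Fin 2 → Fin 3 → ℂ :=
  ![![![-(2 * c), 5 * a - 2 * b, 0], ![a - 2 * b, -(2 * c), a]],
    ![![-(2 * b), -c, b], ![-(2 * c), 4 * a - b, c]]]

theorem ker5 (c : Fin 3 → Fin 3 → Fin 3 → ℂ) (ρ : Fin 2 → Fin 2 → Fin 3 → ℂ)
    (h1 : ∀ x y l, c x y l + c y x l = 0) (h2 : ∀ i x y z, psi om5 c ρ i x y z = 0) :
    (∀ x y l, c x y l = tabC (ρ 0 1 2) (ρ 1 0 2) (ρ 1 1 2) x y l) ∧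
    (∀ i j y, ρ i j y = tabR (ρ 0 1 2) (ρ 1 0 2) (ρ 1 1 2) i j y) := by
  have a_0_0_0 := h1 0 0 0
  have a_0_0_1 := h1 0 0 1
  have a_0_0_2 := h1 0 0 2
  have a_0_1_0 := h1 0 1 0
  have a_0_1_1 := h1 0 1 1
  have a_0_1_2 := h1 0 1 2
  have a_0_2_0 := h1 0 2 0
  have a_0_2_1 := h1 0 2 1
  have a_0_2_2 := h1 0 2 2
  have a_1_1_0 := h1 1 1 0
  have a_1_1_1 := h1 1 1 1
  have a_1_1_2 := h1 1 1 2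
  have a_1_2_0 := h1 1 2 0
  have a_1_2_1 := h1 1 2 1
  have a_1_2_2 := h1 1 2 2
  have a_2_2_0 := h1 2 2 0
  have a_2_2_1 := h1 2 2 1
  have a_2_2_2 := h1 2 2 2
  have p_0_0_0_1 : (-2) * c 0 1 0 + 1 * c 0 0 1 + 1 * ρ 0 0 1 + (-1) * ρ 0 1 0 = 0 := by
    rw [← h2 0 0 0 1]
    simp [psi, om5, Fin.sum_univ_three, Fin.sum_univ_two]
    try ring
  have p_0_0_0_2 : (-2) * c 0 2 0 + 1 * c 0 0 2 + 1 * ρ 0 0 2 = 0 := by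
    rw [← h2 0 0 0 2]
    simp [psi, om5, Fin.sum_univ_three, Fin.sum_univ_two]
    try ring
  have p_0_0_1_2 : (-1) * c 1 2 0 + (-1) * c 0 2 1 + 1 * c 0 1 2 + 1 * ρ 0 1 2 = 0 := by
    rw [← h2 0 0 1 2]
    simp [psi, om5, Fin.sum_univ_three, Fin.sum_univ_two]
    try ring
  have p_0_1_0_1 : (-1) * c 1 1 0 + 1 * c 1 0 1 + (-1) * c 0 1 1 + (-1) * ρ 0 0 0 = 0 := by
    rw [← h2 0 1 0 1]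
    simp [psi, om5, Fin.sum_univ_three, Fin.sum_univ_two]
    try ring
  have p_0_1_0_2 : (-1) * c 1 2 0 + (-1) * c 0 2 1 + 1 * c 1 0 2 + (-1) * ρ 0 1 0 = 0 := by
    rw [← h2 0 1 0 2]
    simp [psi, om5, Fin.sum_univ_three, Fin.sum_univ_two]
    try ring
  have p_0_1_1_2 : (-2) * c 1 2 1 + 1 * c 1 1 2 + 1 * ρ 0 0 2 + (-1) * ρ 0 1 1 = 0 := by
    rw [← h2 0 1 1 2]
    simp [psi, om5, Fin.sum_univ_three, Fin.sum_univ_two]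
    try ring
  have p_0_2_0_1 : (-1) * c 2 1 0 + 1 * c 2 0 1 + (-1) * c 0 1 2 + (-1) * ρ 0 1 0 = 0 := by
    rw [← h2 0 2 0 1]
    simp [psi, om5, Fin.sum_univ_three, Fin.sum_univ_two]
    try ring
  have p_0_2_0_2 : (-1) * c 2 2 0 + 1 * c 2 0 2 + (-1) * c 0 2 2 + (-1) * ρ 0 0 0 = 0 := by
    rw [← h2 0 2 0 2]
    simp [psi, om5, Fin.sum_univ_three, Fin.sum_univ_two]
    try ring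
  have p_0_2_1_2 : (-1) * c 2 2 1 + 1 * c 2 1 2 + (-1) * c 1 2 2 + (-1) * ρ 0 0 1 + 1 * ρ 0 1 2 = 0 := by
    rw [← h2 0 2 1 2]
    simp [psi, om5, Fin.sum_univ_three, Fin.sum_univ_two]
    try ring
  have p_1_0_0_1 : 1 * c 0 0 0 + (-1) * c 0 1 1 + 1 * c 0 0 2 + 1 * ρ 1 0 1 + (-1) * ρ 1 1 0 = 0 := by
    rw [← h2 1 0 0 1]
    simp [psi, om5, Fin.sum_univ_three, Fin.sum_univ_two]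
    try ring
  have p_1_0_0_2 : 1 * c 0 0 1 + (-1) * c 0 2 1 + 1 * ρ 1 0 2 = 0 := by
    rw [← h2 1 0 0 2]
    simp [psi, om5, Fin.sum_univ_three, Fin.sum_univ_two]
    try ring
  have p_1_0_1_2 : (-1) * c 0 2 0 + 1 * c 0 1 1 + (-1) * c 1 2 1 + (-1) * c 0 2 2 + 1 * ρ 1 1 2 = 0 := by
    rw [← h2 1 0 1 2]
    simp [psi, om5, Fin.sum_univ_three, Fin.sum_univ_two]
    try ring
  have p_1_1_0_1 : 1 * c 1 0 0 + 1 * c 1 0 2 + (-1) * c 0 1 2 + (-1) * ρ 1 0 0 = 0 := by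
    rw [← h2 1 1 0 1]
    simp [psi, om5, Fin.sum_univ_three, Fin.sum_univ_two]
    try ring
  have p_1_1_0_2 : 1 * c 1 0 1 + (-1) * c 0 2 2 + (-1) * ρ 1 1 0 = 0 := by
    rw [← h2 1 1 0 2]
    simp [psi, om5, Fin.sum_univ_three, Fin.sum_univ_two]
    try ring
  have p_1_1_1_2 : (-1) * c 1 2 0 + 1 * c 1 1 1 + (-2) * c 1 2 2 + 1 * ρ 1 0 2 + (-1) * ρ 1 1 1 = 0 := by
    rw [← h2 1 1 1 2]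
    simp [psi, om5, Fin.sum_univ_three, Fin.sum_univ_two]
    try ring
  have p_1_2_0_1 : 1 * c 2 0 0 + (-1) * c 0 1 1 + 1 * c 2 0 2 + (-1) * ρ 1 1 0 = 0 := by
    rw [← h2 1 2 0 1]
    simp [psi, om5, Fin.sum_univ_three, Fin.sum_univ_two]
    try ring
  have p_1_2_0_2 : 1 * c 2 0 1 + (-1) * c 0 2 1 + (-1) * ρ 1 0 0 = 0 := by
    rw [← h2 1 2 0 2]
    simp [psi, om5, Fin.sum_univ_three, Fin.sum_univ_two]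
    try ring
  have p_1_2_1_2 : (-1) * c 2 2 0 + 1 * c 2 1 1 + (-1) * c 1 2 1 + (-1) * c 2 2 2 + (-1) * ρ 1 0 1 + 1 * ρ 1 1 2 = 0 := by
    rw [← h2 1 2 1 2]
    simp [psi, om5, Fin.sum_univ_three, Fin.sum_univ_two]
    try ring
  have e_c_0_0_0 : c 0 0 0 = 0 * ρ 0 1 2 + 0 * ρ 1 0 2 + 0 * ρ 1 1 2 := by linear_combination (1/2) * a_0_0_0
  have e_c_0_0_1 : c 0 0 1 = 0 * ρ 0 1 2 + 0 * ρ 1 0 2 + 0 * ρ 1 1 2 := by linear_combination (1/2) * a_0_0_1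
  have e_c_0_0_2 : c 0 0 2 = 0 * ρ 0 1 2 + 0 * ρ 1 0 2 + 0 * ρ 1 1 2 := by linear_combination (1/2) * a_0_0_2
  have e_c_0_1_0 : c 0 1 0 = 2 * ρ 0 1 2 + 0 * ρ 1 0 2 + 0 * ρ 1 1 2 := by linear_combination (-1) * a_1_2_0 + (-2) * p_0_0_1_2 + (-1) * p_0_2_0_1 + 1 * p_0_1_0_2 + 1 * p_1_2_0_2 + (-1) * p_1_1_0_1 + 1 * a_0_1_0
  have e_c_0_1_1 : c 0 1 1 = 0 * ρ 0 1 2 + 0 * ρ 1 0 2 + 1 * ρ 1 1 2 := by linear_combination (-3) * p_1_1_0_2 + (9/2) * a_0_1_1 + (-7/2) * a_0_2_2 + (3/2) * p_0_2_0_2 + (5/4) * a_2_2_0 + (-3/2) * p_0_1_0_1 + (-3/4) * a_1_1_0 + 1 * p_1_2_1_2 + (-1) * a_1_2_1 + (-2) * p_1_0_1_2 + 2 * p_1_2_0_1 + (-2) * a_0_2_0 + (1/2) * a_2_2_2 + 1 * p_1_0_0_1 + (-1/2) * a_0_0_0 + (-1/2) * a_0_0_2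
  have e_c_0_1_2 : c 0 1 2 = (-1) * ρ 0 1 2 + 1 * ρ 1 0 2 + 0 * ρ 1 1 2 := by linear_combination 1 * p_0_0_1_2 + (-1/2) * p_0_1_0_2 + (1/2) * a_0_1_2 + (-1) * p_1_0_0_2 + (1/2) * a_0_0_1 + (1/2) * a_1_2_0 + (1/2) * p_0_2_0_1 + (-1/2) * a_0_2_1
  have e_c_0_2_0 : c 0 2 0 = 0 * ρ 0 1 2 + 0 * ρ 1 0 2 + 0 * ρ 1 1 2 := by linear_combination 1 * a_0_2_2 + (-1) * a_0_1_1 + (-1) * p_1_2_0_1 + 1 * a_0_2_0 + 1 * p_1_1_0_2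
  have e_c_0_2_1 : c 0 2 1 = 0 * ρ 0 1 2 + 1 * ρ 1 0 2 + 0 * ρ 1 1 2 := by linear_combination (-1) * p_1_0_0_2 + (1/2) * a_0_0_1
  have e_c_0_2_2 : c 0 2 2 = 0 * ρ 0 1 2 + 0 * ρ 1 0 2 + 1 * ρ 1 1 2 := by linear_combination (-3) * a_0_2_2 + 1 * p_0_2_0_2 + 1 * a_2_2_0 + 4 * a_0_1_1 + (-1) * p_0_1_0_1 + (-1/2) * a_1_1_0 + (-3) * p_1_1_0_2 + 1 * p_1_2_1_2 + (-1) * a_1_2_1 + (-2) * p_1_0_1_2 + 2 * p_1_2_0_1 + (-2) * a_0_2_0 + (1/2) * a_2_2_2 + 1 * p_1_0_0_1 + (-1/2) * a_0_0_0 + (-1/2) * a_0_0_2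
  have e_c_1_0_0 : c 1 0 0 = (-2) * ρ 0 1 2 + 0 * ρ 1 0 2 + 0 * ρ 1 1 2 := by linear_combination 1 * a_1_2_0 + 2 * p_0_0_1_2 + 1 * p_0_2_0_1 + (-1) * p_0_1_0_2 + (-1) * p_1_2_0_2 + 1 * p_1_1_0_1
  have e_c_1_0_1 : c 1 0 1 = 0 * ρ 0 1 2 + 0 * ρ 1 0 2 + (-1) * ρ 1 1 2 := by linear_combination (-7/2) * a_0_1_1 + 3 * p_1_1_0_2 + (7/2) * a_0_2_2 + (-3/2) * p_0_2_0_2 + (-5/4) * a_2_2_0 + (3/2) * p_0_1_0_1 + (3/4) * a_1_1_0 + (-1) * p_1_2_1_2 + 1 * a_1_2_1 + 2 * p_1_0_1_2 + (-2) * p_1_2_0_1 + 2 * a_0_2_0 + (-1/2) * a_2_2_2 + (-1) * p_1_0_0_1 + (1/2) * a_0_0_0 + (1/2) * a_0_0_2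
  have e_c_1_0_2 : c 1 0 2 = 1 * ρ 0 1 2 + (-1) * ρ 1 0 2 + 0 * ρ 1 1 2 := by linear_combination (-1) * p_0_0_1_2 + (1/2) * a_0_1_2 + (1/2) * p_0_1_0_2 + 1 * p_1_0_0_2 + (-1/2) * a_0_0_1 + (-1/2) * a_1_2_0 + (-1/2) * p_0_2_0_1 + (1/2) * a_0_2_1
  have e_c_1_1_0 : c 1 1 0 = 0 * ρ 0 1 2 + 0 * ρ 1 0 2 + 0 * ρ 1 1 2 := by linear_combination (1/2) * a_1_1_0
  have e_c_1_1_1 : c 1 1 1 = 0 * ρ 0 1 2 + 0 * ρ 1 0 2 + 0 * ρ 1 1 2 := by linear_combination (1/2) * a_1_1_1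
  have e_c_1_1_2 : c 1 1 2 = 0 * ρ 0 1 2 + 0 * ρ 1 0 2 + 0 * ρ 1 1 2 := by linear_combination (1/2) * a_1_1_2
  have e_c_1_2_0 : c 1 2 0 = 0 * ρ 0 1 2 + 0 * ρ 1 0 2 + 0 * ρ 1 1 2 := by linear_combination (1/2) * a_1_2_0 + (1/2) * p_0_2_0_1 + (-1/2) * p_0_1_0_2 + (-1/2) * a_0_2_1 + (1/2) * a_0_1_2
  have e_c_1_2_1 : c 1 2 1 = 0 * ρ 0 1 2 + 0 * ρ 1 0 2 + 1 * ρ 1 1 2 := by linear_combination (-1) * p_1_0_1_2 + (-3/2) * a_0_2_2 + (1/2) * p_0_2_0_2 + (1/4) * a_2_2_0 + (3/2) * a_0_1_1 + (-1/2) * p_0_1_0_1 + (-1/4) * a_1_1_0 + 1 * p_1_2_0_1 + (-1) * a_0_2_0 + (-1) * p_1_1_0_2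
  have e_c_1_2_2 : c 1 2 2 = (-2) * ρ 0 1 2 + 1 * ρ 1 0 2 + 0 * ρ 1 1 2 := by linear_combination (3/2) * a_1_2_0 + (3/2) * p_0_2_0_1 + (-1/2) * a_0_2_1 + (-1) * p_0_1_0_2 + (-1) * p_1_2_0_2 + (-1) * p_1_0_0_2 + (3/4) * a_0_0_1 + (1/2) * a_1_2_2 + (-1/2) * p_0_2_1_2 + (-1/4) * a_2_2_1 + 1 * p_1_1_0_1 + (-1/2) * p_0_0_0_1 + (-1) * a_0_1_0 + (5/2) * p_0_0_1_2
  have e_c_2_0_0 : c 2 0 0 = 0 * ρ 0 1 2 + 0 * ρ 1 0 2 + 0 * ρ 1 1 2 := by linear_combination (-1) * a_0_2_2 + 1 * a_0_1_1 + 1 * p_1_2_0_1 + (-1) * p_1_1_0_2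
  have e_c_2_0_1 : c 2 0 1 = 0 * ρ 0 1 2 + (-1) * ρ 1 0 2 + 0 * ρ 1 1 2 := by linear_combination 1 * a_0_2_1 + 1 * p_1_0_0_2 + (-1/2) * a_0_0_1
  have e_c_2_0_2 : c 2 0 2 = 0 * ρ 0 1 2 + 0 * ρ 1 0 2 + (-1) * ρ 1 1 2 := by linear_combination (-1) * p_0_2_0_2 + (-1) * a_2_2_0 + 4 * a_0_2_2 + (-4) * a_0_1_1 + 1 * p_0_1_0_1 + (1/2) * a_1_1_0 + 3 * p_1_1_0_2 + (-1) * p_1_2_1_2 + 1 * a_1_2_1 + 2 * p_1_0_1_2 + (-2) * p_1_2_0_1 + 2 * a_0_2_0 + (-1/2) * a_2_2_2 + (-1) * p_1_0_0_1 + (1/2) * a_0_0_0 + (1/2) * a_0_0_2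
  have e_c_2_1_0 : c 2 1 0 = 0 * ρ 0 1 2 + 0 * ρ 1 0 2 + 0 * ρ 1 1 2 := by linear_combination (-1/2) * p_0_2_0_1 + (1/2) * p_0_1_0_2 + (1/2) * a_1_2_0 + (1/2) * a_0_2_1 + (-1/2) * a_0_1_2
  have e_c_2_1_1 : c 2 1 1 = 0 * ρ 0 1 2 + 0 * ρ 1 0 2 + (-1) * ρ 1 1 2 := by linear_combination 1 * a_1_2_1 + 1 * p_1_0_1_2 + (3/2) * a_0_2_2 + (-1/2) * p_0_2_0_2 + (-1/4) * a_2_2_0 + (-3/2) * a_0_1_1 + (1/2) * p_0_1_0_1 + (1/4) * a_1_1_0 + (-1) * p_1_2_0_1 + 1 * a_0_2_0 + 1 * p_1_1_0_2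
  have e_c_2_1_2 : c 2 1 2 = 2 * ρ 0 1 2 + (-1) * ρ 1 0 2 + 0 * ρ 1 1 2 := by linear_combination (1/2) * a_1_2_2 + (-3/2) * a_1_2_0 + (-3/2) * p_0_2_0_1 + (1/2) * a_0_2_1 + 1 * p_0_1_0_2 + 1 * p_1_2_0_2 + 1 * p_1_0_0_2 + (-3/4) * a_0_0_1 + (1/2) * p_0_2_1_2 + (1/4) * a_2_2_1 + (-1) * p_1_1_0_1 + (1/2) * p_0_0_0_1 + 1 * a_0_1_0 + (-5/2) * p_0_0_1_2
  have e_c_2_2_0 : c 2 2 0 = 0 * ρ 0 1 2 + 0 * ρ 1 0 2 + 0 * ρ 1 1 2 := by linear_combination (1/2) * a_2_2_0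
  have e_c_2_2_1 : c 2 2 1 = 0 * ρ 0 1 2 + 0 * ρ 1 0 2 + 0 * ρ 1 1 2 := by linear_combination (1/2) * a_2_2_1
  have e_c_2_2_2 : c 2 2 2 = 0 * ρ 0 1 2 + 0 * ρ 1 0 2 + 0 * ρ 1 1 2 := by linear_combination (1/2) * a_2_2_2
  have e_r_0_0_0 : ρ 0 0 0 = 0 * ρ 0 1 2 + 0 * ρ 1 0 2 + (-2) * ρ 1 1 2 := by linear_combination (-8) * a_0_1_1 + 2 * p_0_1_0_1 + 1 * a_1_1_0 + 6 * p_1_1_0_2 + 7 * a_0_2_2 + (-3) * p_0_2_0_2 + (-5/2) * a_2_2_0 + (-2) * p_1_2_1_2 + 2 * a_1_2_1 + 4 * p_1_0_1_2 + (-4) * p_1_2_0_1 + 4 * a_0_2_0 + (-1) * a_2_2_2 + (-2) * p_1_0_0_1 + 1 * a_0_0_0 + 1 * a_0_0_2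
  have e_r_0_0_1 : ρ 0 0 1 = 5 * ρ 0 1 2 + (-2) * ρ 1 0 2 + 0 * ρ 1 1 2 := by linear_combination (-3) * a_1_2_0 + (-3) * p_0_2_0_1 + 1 * a_0_2_1 + 2 * p_0_1_0_2 + 2 * p_1_2_0_2 + 2 * p_1_0_0_2 + (-3/2) * a_0_0_1 + (-2) * p_1_1_0_1 + 1 * p_0_0_0_1 + 2 * a_0_1_0 + (-5) * p_0_0_1_2
  have e_r_0_0_2 : ρ 0 0 2 = 0 * ρ 0 1 2 + 0 * ρ 1 0 2 + 0 * ρ 1 1 2 := by linear_combination 1 * p_0_0_0_2 + (-1/2) * a_0_0_2 + 2 * a_0_2_2 + (-2) * a_0_1_1 + (-2) * p_1_2_0_1 + 2 * a_0_2_0 + 2 * p_1_1_0_2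
  have e_r_0_1_0 : ρ 0 1 0 = 1 * ρ 0 1 2 + (-2) * ρ 1 0 2 + 0 * ρ 1 1 2 := by linear_combination 2 * p_1_0_0_2 + (-1) * a_0_0_1 + (-1) * a_1_2_0 + (-1) * p_0_0_1_2 + (-1) * p_0_2_0_1 + 1 * a_0_2_1
  have e_r_0_1_1 : ρ 0 1 1 = 0 * ρ 0 1 2 + 0 * ρ 1 0 2 + (-2) * ρ 1 1 2 := by linear_combination (-4) * p_1_2_0_1 + 1 * p_0_0_0_2 + 4 * a_0_2_0 + (-1/2) * a_0_0_2 + 2 * p_1_0_1_2 + (-1) * p_0_1_1_2 + (1/2) * a_1_1_2 + 5 * a_0_2_2 + (-1) * p_0_2_0_2 + (-1/2) * a_2_2_0 + (-5) * a_0_1_1 + 1 * p_0_1_0_1 + (1/2) * a_1_1_0 + 4 * p_1_1_0_2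
  have e_r_1_0_0 : ρ 1 0 0 = 0 * ρ 0 1 2 + (-2) * ρ 1 0 2 + 0 * ρ 1 1 2 := by linear_combination 1 * a_0_2_1 + (-1) * a_0_0_1 + 2 * p_1_0_0_2 + (-1) * p_1_2_0_2
  have e_r_1_0_1 : ρ 1 0 1 = 0 * ρ 0 1 2 + 0 * ρ 1 0 2 + (-1) * ρ 1 1 2 := by linear_combination 2 * p_1_1_0_2 + (-3) * a_0_1_1 + 3 * a_0_2_2 + (-1) * p_0_2_0_2 + (-1) * a_2_2_0 + 1 * p_0_1_0_1 + (1/2) * a_1_1_0 + (-1) * p_1_2_1_2 + 1 * a_1_2_1 + 2 * p_1_0_1_2 + (-2) * p_1_2_0_1 + 2 * a_0_2_0 + (-1/2) * a_2_2_2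
  have e_r_1_1_0 : ρ 1 1 0 = 0 * ρ 0 1 2 + 0 * ρ 1 0 2 + (-2) * ρ 1 1 2 := by linear_combination (-2) * p_1_2_1_2 + (-9/4) * a_2_2_0 + 2 * a_1_2_1 + 4 * p_1_0_1_2 + (13/2) * a_0_2_2 + (-5/2) * p_0_2_0_2 + (-15/2) * a_0_1_1 + (5/2) * p_0_1_0_1 + (5/4) * a_1_1_0 + (-4) * p_1_2_0_1 + 4 * a_0_2_0 + 5 * p_1_1_0_2 + (-1) * a_2_2_2 + (-2) * p_1_0_0_1 + 1 * a_0_0_0 + 1 * a_0_0_2
  have e_r_1_1_1 : ρ 1 1 1 = 4 * ρ 0 1 2 + (-1) * ρ 1 0 2 + 0 * ρ 1 1 2 := by linear_combination 2 * p_1_2_0_2 + (3/2) * a_0_2_1 + 2 * p_1_0_0_2 + (-3/2) * a_0_0_1 + (-1) * p_1_1_1_2 + (-7/2) * a_1_2_0 + (-7/2) * p_0_2_0_1 + (5/2) * p_0_1_0_2 + (-1/2) * a_0_1_2 + (1/2) * a_1_1_1 + (-1) * a_1_2_2 + 1 * p_0_2_1_2 + (1/2) * a_2_2_1 + (-2) * p_1_1_0_1 + 1 * p_0_0_0_1 + 2 * a_0_1_0 + (-5) * p_0_0_1_2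
  constructor
  · intro x y l
    fin_cases x <;> fin_cases y <;> fin_cases l <;>
      simp only [tabC, Fin.zero_eta, Fin.mk_one, Fin.reduceFinMk, Matrix.cons_val, Fin.isValue, e_c_0_0_0, e_c_0_0_1, e_c_0_0_2, e_c_0_1_0, e_c_0_1_1, e_c_0_1_2, e_c_0_2_0, e_c_0_2_1, e_c_0_2_2, e_c_1_0_0, e_c_1_0_1, e_c_1_0_2, e_c_1_1_0, e_c_1_1_1, e_c_1_1_2, e_c_1_2_0, e_c_1_2_1, e_c_1_2_2, e_c_2_0_0, e_c_2_0_1, e_c_2_0_2, e_c_2_1_0, e_c_2_1_1, e_c_2_1_2, e_c_2_2_0, e_c_2_2_1, e_c_2_2_2] <;> ring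
  · intro i j y
    fin_cases i <;> fin_cases j <;> fin_cases y <;>
      simp only [tabR, Fin.zero_eta, Fin.mk_one, Fin.reduceFinMk, Matrix.cons_val, Fin.isValue, e_r_0_0_0, e_r_0_0_1, e_r_0_0_2, e_r_0_1_0, e_r_0_1_1, e_r_1_0_0, e_r_1_0_1, e_r_1_1_0, e_r_1_1_1] <;> ring

end Pool.Agent.H81.VGC
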