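import Pool.Agent.H81.VGC.Defs

/-!
# The Zariski topology on `ℂ^σ` and polynomial functions
-/

set_option autoImplicit false

namespace Pool.Agent.H81.VGC

open MvPolynomial

open Topology

theorem isClosed_zariski_iff {σ : Type} (Z : Set (σ → ℂ)) :
    IsClosed[zariski σ] Z ↔ ∃ P : Set (MvPolynomial σ ℂ), Z = {x | ∀ p ∈ P, MvPolynomial.eval x p = 0} := by
  rw [← @isOpen_compl_iff _ _ (zariski σ)]
  change Zᶜᶜ ∈ _ ↔ _
  rw [compl_compl]
  rfl

/-- polynomial functions -/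
def IsPoly {σ : Type} (f : (σ → ℂ) → ℂ) : Prop := ∃ p : MvPolynomial σ ℂ, ∀ x, MvPolynomial.eval x p = f x

namespace IsPoly

variable {σ : Type}

theorem const (a : ℂ) : IsPoly (fun _ : σ → ℂ => a) := ⟨C a, fun x => by simp⟩

theorem coord (s : σ) : IsPoly (fun x : σ → ℂ => x s) := ⟨X s, fun x => by simp⟩

theorem add {f g : (σ → ℂ) → ℂ} (hf : IsPoly f) (hg : IsPoly g) : IsPoly (fun x => f x + g x) := by
  obtain ⟨p, hp⟩ := hf
  obtain ⟨q, hq⟩ := hg
  exact ⟨p + q, fun x => by rw [map_add, hp, hq]⟩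

theorem sub {f g : (σ → ℂ) → ℂ} (hf : IsPoly f) (hg : IsPoly g) : IsPoly (fun x => f x - g x) := by
  obtain ⟨p, hp⟩ := hf
  obtain ⟨q, hq⟩ := hg
  exact ⟨p - q, fun x => by rw [map_sub, hp, hq]⟩

theorem mul {f g : (σ → ℂ) → ℂ} (hf : IsPoly f) (hg : IsPoly g) : IsPoly (fun x => f x * g x) := by
  obtain ⟨p, hp⟩ := hf
  obtain ⟨q, hq⟩ := hg
  exact ⟨p * q, fun x => by rw [map_mul, hp, hq]⟩

theorem sum {ι : Type*} (s : Finset ι) {f : ι → (σ → ℂ) → ℂ} (hf : ∀ i ∈ s, IsPoly (f i)) :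
    IsPoly (fun x => ∑ i ∈ s, f i x) := by
  classical
  choose! p hp using hf
  exact ⟨∑ i ∈ s, p i, fun x => by
    rw [map_sum]; exact Finset.sum_congr rfl fun i hi => hp i hi x⟩

theorem det {ι : Type*} [Fintype ι] [DecidableEq ι] {M : (σ → ℂ) → Matrix ι ι ℂ}
    (hM : ∀ i j, IsPoly (fun x => M x i j)) : IsPoly (fun x => (M x).det) := by
  choose p hp using hM
  refine ⟨(Matrix.of p).det, fun x => ?_⟩
  rw [RingHom.map_det]
  congr 1
  ext i j
  exact hp i j x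

end IsPoly

theorem isClosed_zero {σ : Type} {f : (σ → ℂ) → ℂ} (hf : IsPoly f) :
    IsClosed[zariski σ] {x | f x = 0} := by
  obtain ⟨p, hp⟩ := hf
  rw [isClosed_zariski_iff]
  refine ⟨{p}, ?_⟩
  ext x
  simp [hp]

theorem isOpen_ne {σ : Type} {f : (σ → ℂ) → ℂ} (hf : IsPoly f) :
    IsOpen[zariski σ] {x | f x ≠ 0} := by
  have h := isClosed_zero hf
  rw [← @isOpen_compl_iff _ _ (zariski σ)] at h
  exact h

end Pool.Agent.H81.VGC
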