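import Pool.Agent.H81.VGC.Core
import Pool.Agent.H81.VGC.Zar

/-!
# Injectivity of `Ψ_ω` is a Zariski open condition
-/

set_option autoImplicit false

namespace Pool.Agent.H81.VGC

open Finset

theorem exists_poly_inj {σ : Type} {κ τ : Type*} [Fintype κ] [DecidableEq κ] [Fintype τ] [DecidableEq τ]
    (L : (σ → ℂ) → (κ → ℂ) →ₗ[ℂ] (τ → ℂ))
    (hL : ∀ k t, IsPoly (fun x => L x (Pi.single k 1) t)) (x0 : σ → ℂ)
    (h0 : ∀ u, L x0 u = 0 → u = 0) :
    ∃ f : (σ → ℂ) → ℂ, IsPoly f ∧ f x0 ≠ 0 ∧ ∀ x, f x ≠ 0 → ∀ u, L x u = 0 → u = 0 := by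
  obtain ⟨g, hg⟩ := LinearMap.exists_leftInverse_of_injective (L x0) (by
    rw [LinearMap.ker_eq_bot']; exact h0)
  refine ⟨fun x => (LinearMap.toMatrix' (g ∘ₗ L x)).det, ?_, ?_, ?_⟩
  · apply IsPoly.det
    intro i j
    have e : (fun x => (LinearMap.toMatrix' (g ∘ₗ L x)) i j) =
        fun x => ∑ t, L x (Pi.single j 1) t * (g (Pi.single t 1) i) := by
      funext x
      rw [LinearMap.toMatrix'_apply]
      have e1 : (g ∘ₗ L x) (Pi.single j 1) = g (L x (Pi.single j 1)) := rfl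
      have e2 := LinearMap.pi_apply_eq_sum_univ g (L x (Pi.single j 1))
      rw [e1, e2]
      rw [Finset.sum_apply]
      refine Finset.sum_congr rfl fun t _ => ?_
      have e4 : (fun j' => if t = j' then (1 : ℂ) else 0) = Pi.single t 1 := by
        funext j'
        simp [Pi.single_apply, eq_comm]
      rw [e4]
      simp
    rw [e]
    exact IsPoly.sum _ fun t _ => (hL j t).mul (IsPoly.const _)
  · show (LinearMap.toMatrix' (g ∘ₗ L x0)).det ≠ 0
    rw [hg, LinearMap.toMatrix'_id, Matrix.det_one]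
    exact one_ne_zero
  · intro x hx u hu
    apply Matrix.eq_zero_of_mulVec_eq_zero hx
    rw [← Matrix.toLin'_apply, Matrix.toLin'_toMatrix']
    simp [hu]

variable {V : Type} [Fintype V] [DecidableEq V]

/-- the linear system as a linear map -/
def psiLin (ω : Fin 2 → V → V → ℂ) :
    (((V × V × V) ⊕ (Fin 2 × Fin 2 × V)) → ℂ) →ₗ[ℂ] (((V × V × V) ⊕ (Fin 2 × V × V × V)) → ℂ) where
  toFun u := fun t => match t with
    | Sum.inl (x, y, l) => u (Sum.inl (x, y, l)) + u (Sum.inl (y, x, l))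
    | Sum.inr (i, x, y, z) =>
        psi ω (fun x y l => u (Sum.inl (x, y, l))) (fun i j y => u (Sum.inr (i, j, y))) i x y z
  map_add' u v := by
    funext t
    rcases t with ⟨x, y, l⟩ | ⟨i, x, y, z⟩
    · simp only [Pi.add_apply]
      ring
    · simp only [psi, Pi.add_apply, add_mul, mul_add, Finset.sum_add_distrib, Finset.sum_sub_distrib]
      ring
  map_smul' a u := by
    funext t
    rcases t with ⟨x, y, l⟩ | ⟨i, x, y, z⟩
    · simp only [Pi.smul_apply, smul_eq_mul, RingHom.id_apply]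
      ring
    · simp only [psi, Pi.smul_apply, smul_eq_mul, RingHom.id_apply, mul_add, mul_sub, Finset.mul_sum]
      congr 1
      · congr 1
        · congr 1
          · exact Finset.sum_congr rfl fun _ _ => by ring
          · exact Finset.sum_congr rfl fun _ _ => by ring
        · exact Finset.sum_congr rfl fun _ _ => by ring
      · exact Finset.sum_congr rfl fun _ _ => by ring

theorem psiLin_inr (ω : Fin 2 → V → V → ℂ) (u : ((V × V × V) ⊕ (Fin 2 × Fin 2 × V)) → ℂ)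
    (i : Fin 2) (x y z : V) :
    psiLin ω u (Sum.inr (i, x, y, z)) =
      psi ω (fun x y l => u (Sum.inl (x, y, l))) (fun i j y => u (Sum.inr (i, j, y))) i x y z := rfl

theorem psiLin_inl (ω : Fin 2 → V → V → ℂ) (u : ((V × V × V) ⊕ (Fin 2 × Fin 2 × V)) → ℂ)
    (x y l : V) :
    psiLin ω u (Sum.inl (x, y, l)) = u (Sum.inl (x, y, l)) + u (Sum.inl (y, x, l)) := rfl

theorem isPoly_psi {σ : Type} (w : (σ → ℂ) → Fin 2 → V → V → ℂ)
    (hw : ∀ i x y, IsPoly (fun μ => w μ i x y)) (c : V → V → V → ℂ) (ρ : Fin 2 → Fin 2 → V → ℂ)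
    (i : Fin 2) (x y z : V) : IsPoly (fun μ => psi (w μ) c ρ i x y z) := by
  unfold psi
  refine IsPoly.add (IsPoly.sub (IsPoly.sub ?_ ?_) ?_) ?_
  · exact IsPoly.sum _ fun l _ => (IsPoly.const _).mul (hw _ _ _)
  · exact IsPoly.sum _ fun l _ => (IsPoly.const _).mul (hw _ _ _)
  · have : (fun μ => ∑ l, c y z l * w μ i x l) = fun μ => ∑ l, c y z l * w μ i x l := rfl
    exact IsPoly.sum _ fun l _ => (IsPoly.const _).mul (hw _ _ _)
  · exact IsPoly.sum _ fun j _ =>
      ((IsPoly.const _).mul (hw _ _ _)).sub ((IsPoly.const _).mul (hw _ _ _))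

theorem psiInj_iff (ω : Fin 2 → V → V → ℂ) : PsiInj ω ↔ ∀ u, psiLin ω u = 0 → u = 0 := by
  constructor
  · intro h u hu
    have h1 := h (fun x y l => u (Sum.inl (x, y, l))) (fun i j y => u (Sum.inr (i, j, y)))
      (fun x y l => congrFun hu (Sum.inl (x, y, l)))
      (fun i x y z => congrFun hu (Sum.inr (i, x, y, z)))
    funext t
    rcases t with ⟨x, y, l⟩ | ⟨i, j, y⟩
    · exact h1.1 x y l
    · exact h1.2 i j y
  · intro h c ρ hanti hpsi
    have h1 := h (fun t => match t with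
      | Sum.inl (x, y, l) => c x y l
      | Sum.inr (i, j, y) => ρ i j y) (by
        funext t
        rcases t with ⟨x, y, l⟩ | ⟨i, x, y, z⟩
        · exact hanti x y l
        · exact hpsi i x y z)
    exact ⟨fun x y l => congrFun h1 (Sum.inl (x, y, l)), fun i j y => congrFun h1 (Sum.inr (i, j, y))⟩

theorem exists_poly_psi {σ : Type} (w : (σ → ℂ) → Fin 2 → V → V → ℂ)
    (hw : ∀ i x y, IsPoly (fun μ => w μ i x y)) (μ0 : σ → ℂ) (h0 : PsiInj (w μ0)) :
    ∃ f : (σ → ℂ) → ℂ, IsPoly f ∧ f μ0 ≠ 0 ∧ ∀ μ, f μ ≠ 0 → PsiInj (w μ) := by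
  obtain ⟨f, hf, hf0, hf1⟩ := exists_poly_inj (fun μ => psiLin (w μ)) (by
    intro k t
    rcases t with ⟨x, y, l⟩ | ⟨i, x, y, z⟩
    · exact IsPoly.const _
    · simp only [psiLin_inr]
      exact isPoly_psi w hw _ _ i x y z) μ0
    ((psiInj_iff _).1 h0)
  exact ⟨f, hf, hf0, fun μ hμ => (psiInj_iff _).2 (hf1 μ hμ)⟩

end Pool.Agent.H81.VGC
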