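import Pool.Agent.H81.VGC.Model
import Pool.Agent.H81.VGC.Opn

/-!
# A nonempty Zariski open set of class two algebras in `Leib_{m+2}`, `m ≥ 4`
-/

set_option autoImplicit false

namespace Pool.Agent.H81.VGC

open Finset Topology

/-- class two: `(x y) z = 0 = x (y z)` -/
def ClassTwo {n : ℕ} (μ : Fin n × Fin n × Fin n → ℂ) : Prop :=
  ∀ x y z : Fin n → ℂ, mul μ (mul μ x y) z = 0 ∧ mul μ x (mul μ y z) = 0

theorem ClassTwo.isNil {n : ℕ} {μ : Fin n × Fin n × Fin n → ℂ} (h : ClassTwo μ) : IsNil μ := by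
  refine ⟨2, fun x y _ hy => ?_⟩
  have h1 := hy 1
  have h0 := hy 0
  simp only [zero_add] at h0
  rw [h1, h0]
  exact (h _ _ _).1

/-- the product as a bilinear map -/
def mulL {n : ℕ} (μ : Fin n × Fin n × Fin n → ℂ) : (Fin n → ℂ) →ₗ[ℂ] (Fin n → ℂ) →ₗ[ℂ] (Fin n → ℂ) :=
  LinearMap.mk₂ ℂ (mul μ)
    (by
      intro x x' y
      funext k
      simp only [mul, Pi.add_apply, add_mul, Finset.sum_add_distrib])
    (by
      intro a x y
      funext k
      simp only [mul, Pi.smul_apply, smul_eq_mul, Finset.mul_sum, mul_assoc])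
    (by
      intro x y y'
      funext k
      simp only [mul, Pi.add_apply, mul_add, add_mul, Finset.sum_add_distrib])
    (by
      intro a x y
      funext k
      simp only [mul, Pi.smul_apply, smul_eq_mul, Finset.mul_sum]
      refine Finset.sum_congr rfl fun i _ => Finset.sum_congr rfl fun j _ => ?_
      ring)

theorem mulL_apply {n : ℕ} (μ : Fin n × Fin n × Fin n → ℂ) (x y : Fin n → ℂ) : mulL μ x y = mul μ x y := rfl

theorem mul_single {n : ℕ} (μ : Fin n × Fin n × Fin n → ℂ) (i j k : Fin n) :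
    mul μ (Pi.single i 1) (Pi.single j 1) k = μ (i, j, k) := by
  unfold mul
  rw [Finset.sum_eq_single i, Finset.sum_eq_single j]
  · simp
  · intro b _ hb; simp [hb]
  · simp
  · intro b _ hb; simp [hb]
  · simp

theorem isPoly_mul {n : ℕ} {f g : (Fin n × Fin n × Fin n → ℂ) → (Fin n → ℂ)}
    (hf : ∀ i, IsPoly (fun μ => f μ i)) (hg : ∀ i, IsPoly (fun μ => g μ i)) (k : Fin n) :
    IsPoly (fun μ => mul μ (f μ) (g μ) k) := by
  unfold mul
  exact IsPoly.sum _ fun i _ => IsPoly.sum _ fun j _ => ((hf i).mul (hg j)).mul (IsPoly.coord _)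

theorem isClosed_classTwo (n : ℕ) : IsClosed[zarLeib n] {μ : Leib n | ClassTwo μ.1} := by
  have : {μ : Leib n | ClassTwo μ.1} = Subtype.val ⁻¹' {μ : Fin n × Fin n × Fin n → ℂ | ClassTwo μ} := rfl
  rw [this]
  apply @IsClosed.preimage _ _ (zarLeib n) (zariski _) _ (@continuous_induced_dom _ _ _ (zariski _))
  have e : {μ : Fin n × Fin n × Fin n → ℂ | ClassTwo μ} =
      ⋂ (x : Fin n → ℂ), ⋂ (y : Fin n → ℂ), ⋂ (z : Fin n → ℂ), ⋂ (k : Fin n),
        ({μ | mul μ (mul μ x y) z k = 0} ∩ {μ | mul μ x (mul μ y z) k = 0}) := by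
    ext μ
    simp only [Set.mem_iInter, Set.mem_inter_iff]
    constructor
    · intro h x y z k
      exact ⟨congrFun (h x y z).1 k, congrFun (h x y z).2 k⟩
    · intro h x y z
      exact ⟨funext fun k => (h x y z k).1, funext fun k => (h x y z k).2⟩
  rw [e]
  refine @isClosed_iInter _ _ (zariski _) _ fun x => @isClosed_iInter _ _ (zariski _) _ fun y =>
    @isClosed_iInter _ _ (zariski _) _ fun z => @isClosed_iInter _ _ (zariski _) _ fun k => ?_
  refine @IsClosed.inter _ _ _ (zariski _) (isClosed_zero ?_) (isClosed_zero ?_)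
  · exact isPoly_mul (f := fun μ => mul μ x y) (g := fun _ => z)
      (fun i => isPoly_mul (f := fun _ => x) (g := fun _ => y) (fun j => IsPoly.const (x j)) (fun j => IsPoly.const (y j)) i)
      (fun j => IsPoly.const (z j)) k
  · exact isPoly_mul (f := fun _ => x) (g := fun μ => mul μ y z) (fun j => IsPoly.const (x j))
      (fun i => isPoly_mul (f := fun _ => y) (g := fun _ => z) (fun j => IsPoly.const (y j)) (fun j => IsPoly.const (z j)) i) k

/-! ### coordinates `Fin (m+2) = V ⊕ Fin 2`, `V = Fin m` -/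

/-- the coordinate equivalence -/
abbrev ph (m : ℕ) : Fin m ⊕ Fin 2 ≃ Fin (m + 2) := finSumFinEquiv

/-- basis vectors of `V` -/
def ee (m : ℕ) (l : Fin m) : Fin (m + 2) → ℂ := Pi.single (ph m (Sum.inl l)) 1

/-- the two last coordinates -/
def pp (m : ℕ) (i : Fin 2) : (Fin (m + 2) → ℂ) →ₗ[ℂ] ℂ := LinearMap.proj (ph m (Sum.inr i))

/-- the structure constants `V × V → Z` -/
def ww (m : ℕ) (μ : Fin (m + 2) × Fin (m + 2) × Fin (m + 2) → ℂ) (i : Fin 2) (x y : Fin m) : ℂ :=
  μ (ph m (Sum.inl x), ph m (Sum.inl y), ph m (Sum.inr i))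

theorem pp_mul (m : ℕ) (μ : Fin (m + 2) × Fin (m + 2) × Fin (m + 2) → ℂ) (i : Fin 2) (x y : Fin m) :
    pp m i (mulL μ (ee m x) (ee m y)) = ww m μ i x y := by
  show mul μ (ee m x) (ee m y) _ = _
  exact mul_single _ _ _ _

theorem isPoly_ww (m : ℕ) (i : Fin 2) (x y : Fin m) : IsPoly (fun μ => ww m μ i x y) := IsPoly.coord _

/-- the open conditions imply class two -/
theorem classTwo_of_open (m : ℕ) (v₁ v₂ : Fin m) (μ : Fin (m + 2) × Fin (m + 2) × Fin (m + 2) → ℂ)
    (hμ : μ ∈ Leib (m + 2))
    (ha : (Matrix.of fun x l => ww m μ 0 x l).det ≠ 0)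
    (hb : ww m μ 0 v₁ v₁ * (ww m μ 1 v₁ v₂ + ww m μ 1 v₂ v₁) -
      ww m μ 1 v₁ v₁ * (ww m μ 0 v₁ v₂ + ww m μ 0 v₂ v₁) ≠ 0)
    (hc : PsiInj2 (ww m μ)) : ClassTwo μ := by
  have key := core (mulL μ) (fun x y z => hμ x y z) (ee m) (pp m)
    (by
      intro i v
      show (Pi.single (ph m (Sum.inl v)) 1 : Fin (m + 2) → ℂ) (ph m (Sum.inr i)) = 0
      rw [Pi.single_apply, if_neg]
      intro h
      have := (ph m).injective h
      cases this)
    (by
      intro a h
      refine ⟨fun l => a (ph m (Sum.inl l)), ?_⟩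
      funext k
      obtain ⟨t, rfl⟩ := (ph m).surjective k
      rw [Finset.sum_apply]
      rcases t with l | i
      · rw [Finset.sum_eq_single l]
        · simp [ee]
        · intro b _ hb
          have : (ph m (Sum.inl l)) ≠ (ph m (Sum.inl b)) := by
            intro h'
            exact hb (Sum.inl_injective ((ph m).injective h')).symm
          simp only [ee, Pi.smul_apply, Pi.single_apply, if_neg this, smul_zero]
        · simp
      · have h1 : a (ph m (Sum.inr i)) = 0 := h i
        rw [h1]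
        symm
        apply Finset.sum_eq_zero
        intro b _
        have : (ph m (Sum.inr i)) ≠ (ph m (Sum.inl b)) := by
          intro h'
          cases (ph m).injective h'
        simp only [ee, Pi.smul_apply, Pi.single_apply, if_neg this, smul_zero])
    (by
      intro t h l
      have h1 := congrFun h (ph m (Sum.inl l))
      rw [Finset.sum_apply, Finset.sum_eq_single l] at h1
      · simpa [ee] using h1
      · intro b _ hb
        have : (ph m (Sum.inl l)) ≠ (ph m (Sum.inl b)) := by
          intro h'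
          exact hb (Sum.inl_injective ((ph m).injective h')).symm
        simp only [ee, Pi.smul_apply, Pi.single_apply, if_neg this, smul_zero]
      · simp)
    (by
      intro t h
      have h1 : (Matrix.of fun x l => ww m μ 0 x l).mulVec t = 0 := by
        funext x
        have h2 := h x
        simp only [pp_mul] at h2
        simp only [Matrix.mulVec, dotProduct, Matrix.of_apply, Pi.zero_apply]
        rw [← h2]
        exact Finset.sum_congr rfl fun _ _ => mul_comm _ _
      have h3 := Matrix.eq_zero_of_mulVec_eq_zero ha h1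
      intro l
      exact congrFun h3 l)
    v₁ v₂
    (by
      simp only [pp_mul]
      exact hb)
    (by
      simp only [pp_mul]
      exact hc)
  exact key

end Pool.Agent.H81.VGC
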