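import Pool.Agent.H81.VGC.Core

/-!
# The model bilinear maps: `ω₀ = identity`, `ω₁ = E_{ab} + E_{a'b'}`; injectivity of `Ψ_ω`
-/

set_option autoImplicit false
set_option linter.unusedVariables false
set_option linter.unusedSimpArgs false
set_option linter.unusedSectionVars false

namespace Pool.Agent.H81.VGC

open Finset

variable {V : Type*} [Fintype V] [DecidableEq V]

/-- `δ` -/
def dl (x y : V) : ℂ := if x = y then 1 else 0

/-- `E_{ab} + E_{a'b'}` -/
def bb (a b a' b' : V) (x y : V) : ℂ :=
  (if x = a ∧ y = b then 1 else 0) + (if x = a' ∧ y = b' then 1 else 0)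

/-- the model `ω` -/
def om (a b a' b' : V) (i : Fin 2) (x y : V) : ℂ :=
  if i = 0 then dl x y else bb a b a' b' x y

/-- second equation after evaluation -/
def E2 (a b a' b' : V) (c : V → V → V → ℂ) (r s : V → ℂ) (x y z : V) : ℂ :=
  ((if z = b then c x y a else 0) + (if z = b' then c x y a' else 0)) -
    ((if y = b then c x z a else 0) + (if y = b' then c x z a' else 0)) -
    ((if x = a then c y z b else 0) + (if x = a' then c y z b' else 0)) +
    (r z * dl x y - r y * dl x z) + (s z * bb a b a' b' x y - s y * bb a b a' b' x z)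

theorem sum_bb_right (a b a' b' : V) (f : V → ℂ) (z : V) :
    ∑ l, f l * bb a b a' b' l z = (if z = b then f a else 0) + (if z = b' then f a' else 0) := by
  unfold bb
  simp only [mul_add, Finset.sum_add_distrib]
  congr 1
  · by_cases h : z = b
    · simp [h]
    · simp [h]
  · by_cases h : z = b'
    · simp [h]
    · simp [h]

theorem sum_bb_left (a b a' b' : V) (f : V → ℂ) (x : V) :
    ∑ l, f l * bb a b a' b' x l = (if x = a then f b else 0) + (if x = a' then f b' else 0) := by
  unfold bb
  simp only [mul_add, Finset.sum_add_distrib]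
  congr 1
  · by_cases h : x = a
    · simp [h]
    · simp [h]
  · by_cases h : x = a'
    · simp [h]
    · simp [h]

theorem bb_comm (a b a' b' x y : V) : bb a b a' b' x y = bb a' b' a b x y := by
  unfold bb; ring

theorem E2_comm (a b a' b' : V) (c : V → V → V → ℂ) (r s : V → ℂ) (x y z : V) :
    E2 a b a' b' c r s x y z = E2 a' b' a b c r s x y z := by
  unfold E2
  rw [bb_comm a b a' b' x y, bb_comm a b a' b' x z]
  ring

theorem half1 (a b a' b' : V) (hab : a ≠ b) (haa : a ≠ a') (hab' : a ≠ b') (hba' : b ≠ a') (hbb : b ≠ b')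
    (c : V → V → V → ℂ) (p q r s : V → ℂ)
    (hanti : ∀ x y l, c x y l + c y x l = 0)
    (hF : ∀ x y z, 2 * c y z x = dl x y * p z - dl x z * p y + q z * bb a b a' b' y x -
      q y * bb a b a' b' z x - q x * (bb a b a' b' y z - bb a b a' b' z y))
    (hE : ∀ x y z, E2 a b a' b' c r s x y z = 0) :
    ∀ k, k ≠ a → k ≠ b → r k = 0 ∧ q k = 0 := by
  intro k hka hkb
  have hself : ∀ x l, c x x l = 0 := by
    intro x l
    have := hanti x x l
    rw [← two_mul] at this
    exact (mul_eq_zero.mp this).resolve_left two_ne_zero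
  have h1 := hE b b k
  have h2 := hE a a k
  have f1 := hF a b k
  have f2 := hF b a k
  simp only [E2, dl, bb, hself, hab, hab.symm, haa, haa.symm, hab', hab'.symm, hba', hba'.symm, hbb, hbb.symm,
    hka, hka.symm, hkb, hkb.symm, if_true, if_false, and_true, true_and, and_false, false_and, and_self,
    ite_self] at h1 h2 f1 f2
  have hr : r k = 0 := by
    have : c b k a = 0 := by linear_combination f1 / 2
    rw [this] at h1
    linear_combination h1
  refine ⟨hr, ?_⟩
  rw [hr] at h2
  linear_combination -f2 - 2 * h2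

theorem half2 (a b a' b' : V) (hab : a ≠ b) (haa : a ≠ a') (hab' : a ≠ b') (hba' : b ≠ a') (hbb : b ≠ b')
    (c : V → V → V → ℂ) (p r s : V → ℂ)
    (hF : ∀ x y z, 2 * c y z x = dl x y * p z - dl x z * p y)
    (hE : ∀ x y z, E2 a b a' b' c r s x y z = 0) :
    ∀ k, k ≠ a → k ≠ b → p k = 0 := by
  intro k hka hkb
  have h1 := hE k a b
  have f1 := hF a k a
  have f2 := hF b' a b
  simp only [E2, dl, bb, hab, hab.symm, haa, haa.symm, hab', hab'.symm, hba', hba'.symm, hbb, hbb.symm,
    hka, hka.symm, hkb, hkb.symm, if_true, if_false, and_true, true_and, and_false, false_and, and_self,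
    ite_self] at h1 f1 f2
  have e2 : c a b b' = 0 := by linear_combination f2 / 2
  simp only [e2, ite_self] at h1
  linear_combination f1 - 2 * h1

theorem half3 (a b a' b' : V) (hab : a ≠ b) (haa : a ≠ a') (hab' : a ≠ b') (hba' : b ≠ a') (hbb : b ≠ b')
    (c : V → V → V → ℂ) (r s : V → ℂ) (hc : ∀ x y z, c x y z = 0)
    (hE : ∀ x y z, E2 a b a' b' c r s x y z = 0) :
    ∀ k, k ≠ a → k ≠ b → s k = 0 := by
  intro k hka hkb
  have h1 := hE a k b
  simp only [E2, dl, bb, hc, hab, hab.symm, haa, haa.symm, hab', hab'.symm, hba', hba'.symm, hbb, hbb.symm,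
    hka, hka.symm, hkb, hkb.symm, if_true, if_false, and_true, true_and, and_false, false_and, and_self,
    ite_self] at h1
  linear_combination -h1

theorem psiInj_om (a b a' b' : V) (hab : a ≠ b) (haa : a ≠ a') (hab' : a ≠ b') (hba' : b ≠ a') (hbb : b ≠ b')
    (ha'b' : a' ≠ b') : PsiInj (om a b a' b') := by
  intro c ρ hanti hpsi
  obtain ⟨p, hp⟩ : ∃ p, p = ρ 0 0 := ⟨_, rfl⟩
  obtain ⟨q, hq⟩ : ∃ q, q = ρ 0 1 := ⟨_, rfl⟩
  obtain ⟨r, hr⟩ : ∃ r, r = ρ 1 0 := ⟨_, rfl⟩
  obtain ⟨s, hs⟩ : ∃ s, s = ρ 1 1 := ⟨_, rfl⟩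
  have hE1 : ∀ x y z, c x y z - c x z y - c y z x + (p z * dl x y - p y * dl x z) +
      (q z * bb a b a' b' x y - q y * bb a b a' b' x z) = 0 := by
    intro x y z
    have h := hpsi 0 x y z
    unfold psi at h
    rw [Fin.sum_univ_two] at h
    simp only [om, if_true, Fin.isValue, one_ne_zero, if_false] at h
    have s1 : ∑ l, c x y l * dl l z = c x y z := by simp [dl]
    have s2 : ∑ l, c x z l * dl l y = c x z y := by simp [dl]
    have s3 : ∑ l, c y z l * dl x l = c y z x := by simp [dl]
    rw [s1, s2, s3] at h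
    rw [hp, hq]
    linear_combination h
  have hE : ∀ x y z, E2 a b a' b' c r s x y z = 0 := by
    intro x y z
    have h := hpsi 1 x y z
    unfold psi at h
    rw [Fin.sum_univ_two] at h
    simp only [om, if_true, Fin.isValue, one_ne_zero, if_false] at h
    rw [sum_bb_right, sum_bb_right, sum_bb_left] at h
    rw [hr, hs]
    unfold E2
    linear_combination h
  have hF : ∀ x y z, 2 * c y z x = dl x y * p z - dl x z * p y + q z * bb a b a' b' y x -
      q y * bb a b a' b' z x - q x * (bb a b a' b' y z - bb a b a' b' z y) := by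
    intro x y z
    have dlc : ∀ u v : V, dl u v = dl v u := by
      intro u v; unfold dl; simp only [eq_comm]
    have e1 := hE1 y z x
    have e2 := hE1 z x y
    rw [dlc y x] at e1
    rw [dlc z x, dlc z y] at e2
    linear_combination e1 + e2 + hanti x y z + hanti y z x
  have hE' : ∀ x y z, E2 a' b' a b c r s x y z = 0 := by
    intro x y z; rw [← E2_comm]; exact hE x y z
  have hF' : ∀ x y z, 2 * c y z x = dl x y * p z - dl x z * p y + q z * bb a' b' a b y x -
      q y * bb a' b' a b z x - q x * (bb a' b' a b y z - bb a' b' a b z y) := by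
    intro x y z
    rw [hF x y z, bb_comm a b a' b' y x, bb_comm a b a' b' z x, bb_comm a b a' b' y z, bb_comm a b a' b' z y]
  have k1 := half1 a b a' b' hab haa hab' hba' hbb c p q r s hanti hF hE
  have k2 := half1 a' b' a b ha'b' haa.symm hba'.symm hab'.symm hbb.symm c p q r s hanti hF' hE'
  have hrq : ∀ k, r k = 0 ∧ q k = 0 := by
    intro k
    by_cases h : k = a
    · exact k2 k (h ▸ haa) (h ▸ hab')
    · by_cases h' : k = b
      · exact k2 k (h' ▸ hba') (h' ▸ hbb)
      · exact k1 k h h'
  have hG : ∀ x y z, 2 * c y z x = dl x y * p z - dl x z * p y := by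
    intro x y z
    rw [hF x y z, (hrq z).2, (hrq y).2, (hrq x).2]
    ring
  have k3 := half2 a b a' b' hab haa hab' hba' hbb c p r s hG hE
  have k4 := half2 a' b' a b ha'b' haa.symm hba'.symm hab'.symm hbb.symm c p r s hG hE'
  have hp0 : ∀ k, p k = 0 := by
    intro k
    by_cases h : k = a
    · exact k4 k (h ▸ haa) (h ▸ hab')
    · by_cases h' : k = b
      · exact k4 k (h' ▸ hba') (h' ▸ hbb)
      · exact k3 k h h'
  have hc0 : ∀ x y z, c x y z = 0 := by
    intro x y z
    have h := hG z x y
    rw [hp0, hp0] at h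
    linear_combination h / 2
  have k5 := half3 a b a' b' hab haa hab' hba' hbb c r s hc0 hE
  have k6 := half3 a' b' a b ha'b' haa.symm hba'.symm hab'.symm hbb.symm c r s hc0 hE'
  have hs0 : ∀ k, s k = 0 := by
    intro k
    by_cases h : k = a
    · exact k6 k (h ▸ haa) (h ▸ hab')
    · by_cases h' : k = b
      · exact k6 k (h' ▸ hba') (h' ▸ hbb)
      · exact k5 k h h'
  refine ⟨hc0, ?_⟩
  intro i j y
  fin_cases i <;> fin_cases j
  · change ρ 0 0 y = 0; rw [← hp]; exact hp0 y
  · change ρ 0 1 y = 0; rw [← hq]; exact (hrq y).2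
  · change ρ 1 0 y = 0; rw [← hr]; exact (hrq y).1
  · change ρ 1 1 y = 0; rw [← hs]; exact hs0 y

end Pool.Agent.H81.VGC
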